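import Pool.Agent.Z97H.DP.Grad
import Pool.Agent.N662.SE.All
import Pool.Agent.N523.SE.MGF

/-!
# The diffusive lower bound, assembly
-/

set_option autoImplicit false

open MeasureTheory ProbabilityTheory Filter Topology

namespace Pool.Agent.Z97H.DP

open TH967.DP (Step pos energy)
open Pool.Agent.N662.SE

variable {d : ℕ}

/-- the concentration -/
theorem conc : S_CONC := Pool.Agent.N523.SE.CONC.main Pool.Agent.N523.SE.MGF.main

/-- the rate of convergence -/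
theorem rate : S_RATE :=
  Pool.Agent.N353.SE.Rate.main (Pool.Agent.N50.SE.SUP.main conc) (Pool.Agent.N97.SE.DBL.main conc)
    (Pool.Agent.N50.SE.CVX.main conc)

lemma box_mono (v : Fin d → ℝ) {r r' : ℝ} (h : r ≤ r') (n : ℕ) : box v r n ⊆ box v r' n :=
  fun _ hw k => (hw k).trans h

lemma dev_sub (v : Fin d → ℝ) (r : ℝ) (n : ℕ) :
    {w : Fin n → Step d | dev v w n ≤ r} ⊆ box v r n :=
  fun w hw k => (abs_le_dev v w n k).trans hw

lemma integral_prob_mono (hd : 1 ≤ d) {Ω : Type} [MeasurableSpace Ω] {P : Measure Ω}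
    [IsProbabilityMeasure P] {ω : ℕ → (Fin d → ℤ) → Ω → ℝ} (hm : ∀ i y, Measurable (ω i y))
    (β : ℝ) (h : Fin d → ℝ) {n : ℕ} {A B : Set (Fin n → Step d)} (hAB : A ⊆ B) :
    ∫ x, prob β h (fun i y => ω i y x) n A ∂P ≤ ∫ x, prob β h (fun i y => ω i y x) n B ∂P := by
  apply integral_mono_of_nonneg (Eventually.of_forall fun x => prob_nonneg _ _ _ _)
  · apply (integrable_const (1 : ℝ)).mono' (measurable_prob β h _ hm).aestronglyMeasurable
    refine Eventually.of_forall fun x => ?_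
    rw [Real.norm_eq_abs, abs_of_nonneg (prob_nonneg _ _ _ _)]
    exact prob_le_one hd _ _ _ _
  · exact Eventually.of_forall fun x => prob_mono _ _ _ hAB

theorem null (hd : 1 ≤ d) {Ω : Type} [MeasurableSpace Ω]
    (P : Measure Ω) [IsProbabilityMeasure P] (ω : ℕ → (Fin d → ℤ) → Ω → ℝ) (he : IsEnv P ω)
    (hexp : ∀ b : ℝ, Integrable (fun x => Real.exp (b * ω 1 0 x)) P) (β : ℝ)
    {φ : (Fin d → ℝ) → ℝ} {C : ℝ} (hfr : ∀ (h : Fin d → ℝ) (n : ℕ), free P ω β h n ≤ n * φ h)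
    (hrate : ∀ (h : Fin d → ℝ) (n : ℕ),
      n * φ h ≤ free P ω β h n + C * Real.sqrt n * Real.log (n + 1)) :
    volume {v : Fin d → ℝ | ∃ h : Fin d → ℝ, ∃ η : ℝ, 0 < η ∧ ∀ ε : ℝ, 0 < ε → ∀ᶠ n : ℕ in atTop,
      η ≤ ∫ x, prob β h (fun i y => ω i y x) n (box v (ε * Real.sqrt n) n) ∂P} = 0 := by
  have hi : S_ID := Pool.Agent.N951.SE.t
  set X : ℕ → Set (Fin d → ℝ) := fun M => {v : Fin d → ℝ | ‖v‖ ≤ M + 1 ∧ ∃ h : Fin d → ℝ,
    ‖h‖ ≤ M + 1 ∧ Sub φ h v ∧ ∀ ε : ℝ, 0 < ε → ∀ᶠ n : ℕ in atTop,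
      1 / ((M : ℝ) + 1) ≤
        ∫ x, prob β h (fun i y => ω i y x) n (box v (ε * Real.sqrt n) n) ∂P} with hX
  apply measure_mono_null (t := ⋃ M, X M)
  · rintro v ⟨h, η, hη, H⟩
    have hsub : Sub φ h v := by
      apply sub_of_conf conc hi hd P ω he hexp β hfr hrate hη
      have := H 1 one_pos
      simp only [one_mul] at this
      exact this.frequently
    obtain ⟨a, ha⟩ := exists_nat_ge ‖v‖
    obtain ⟨b, hb⟩ := exists_nat_ge ‖h‖
    obtain ⟨c, hc⟩ := exists_nat_ge (1 / η)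
    rw [Set.mem_iUnion]
    refine ⟨max a (max b c), ?_, h, ?_, hsub, fun ε hε => ?_⟩
    · have : (a : ℝ) ≤ ((max a (max b c) : ℕ) : ℝ) := by exact_mod_cast le_max_left _ _
      linarith
    · have : (b : ℝ) ≤ ((max a (max b c) : ℕ) : ℝ) := by
        exact_mod_cast (le_max_left _ _).trans (le_max_right _ _)
      linarith
    · filter_upwards [H ε hε] with n hn
      refine le_trans ?_ hn
      have : (c : ℝ) ≤ ((max a (max b c) : ℕ) : ℝ) := by
        exact_mod_cast (le_max_right _ _).trans (le_max_right _ _)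
      rw [div_le_iff₀ (by positivity)]
      rw [div_le_iff₀ hη] at hc
      nlinarith
  · apply measure_iUnion_null
    intro M
    have hMM : (1 : ℝ) ≤ (M : ℝ) + 1 := by
      have : (0 : ℝ) ≤ M := Nat.cast_nonneg M
      linarith
    have key : ∀ δ : ℝ, 0 < δ → volume (X M) ≤ ENNReal.ofReal δ := by
      intro δ hδ
      obtain ⟨ε, hε, hun⟩ := unif hd P ω he.meas β φ (M + 1) hMM
        (show (0 : ℝ) < 1 / (M + 1) by positivity) hδ
      set Y : ℕ → Set (Fin d → ℝ) := fun N => {v : Fin d → ℝ | ‖v‖ ≤ M + 1 ∧ ∃ h : Fin d → ℝ,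
        ‖h‖ ≤ M + 1 ∧ Sub φ h v ∧ ∀ n, N ≤ n → 1 / ((M : ℝ) + 1) ≤
          ∫ x, prob β h (fun i y => ω i y x) n (box v (ε * Real.sqrt n) n) ∂P} with hY
      have hmono : Monotone Y := by
        rintro N N' hNN v ⟨h1, h, h2, h3, h4⟩
        exact ⟨h1, h, h2, h3, fun n hn => h4 n (hNN.trans hn)⟩
      have hsub : X M ⊆ ⋃ N, Y N := by
        rintro v ⟨h1, h, h2, h3, h4⟩
        obtain ⟨N, hN⟩ := eventually_atTop.1 (h4 ε hε)
        rw [Set.mem_iUnion]
        exact ⟨N, h1, h, h2, h3, hN⟩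
      refine (measure_mono hsub).trans ?_
      rw [hmono.measure_iUnion]
      apply iSup_le
      intro N
      refine le_trans (measure_mono ?_) (hun (max N 1) (le_max_right _ _))
      rintro v ⟨h1, h, h2, h3, h4⟩
      exact ⟨h1, h, h2, h3, h4 _ (le_max_left _ _)⟩
    by_contra hne
    have h0 : 0 < volume (X M) := pos_iff_ne_zero.2 hne
    obtain ⟨s, hs0, hs⟩ := ENNReal.lt_iff_exists_nnreal_btwn.1 h0
    have hs0' : (0 : ℝ) < s := by exact_mod_cast hs0
    have h1 := key s hs0'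
    rw [ENNReal.ofReal_coe_nnreal] at h1
    exact absurd hs (not_lt.2 h1)

end Pool.Agent.Z97H.DP
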