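import Pool.Agent.Z97H.DP.Unif
import Pool.Agent.N662.SE.Exp2
import Pool.Agent.N427.SE.UPX

/-!
# If the end point of the polymer stays near `n v` then `v` is a subgradient of the free energy
-/

set_option autoImplicit false

open MeasureTheory ProbabilityTheory Filter Topology

namespace Pool.Agent.Z97H.DP

open TH967.DP Pool.Agent.N662.SE

variable {d : ℕ}

/-- concentration in probability -/
lemma conc_prob (hc : S_CONC) (hi : S_ID) (hd : 1 ≤ d) {Ω : Type} [MeasurableSpace Ω]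
    (P : Measure Ω) [IsProbabilityMeasure P] (ω : ℕ → (Fin d → ℤ) → Ω → ℝ) (he : IsEnv P ω)
    (hexp : ∀ b : ℝ, Integrable (fun x => Real.exp (b * ω 1 0 x)) P) (β : ℝ) (h : Fin d → ℝ)
    {t : ℝ} (ht : 0 < t) :
    ∀ᶠ n : ℕ in atTop, P.real {x | (n : ℝ) ^ (3 / 4 : ℝ) ≤
      |lw ω β h 0 0 n x - free P ω β h n|} ≤ t := by
  set C0 := 2 * Real.exp (mom P ω β) with hC0
  have h1 := conc_half hc hd he hexp β
  have h2 : Tendsto (fun n : ℕ => |C0| * Real.exp (-(1 / 4 * (n : ℝ) ^ (3 / 4 - 1 / 2 : ℝ))))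
      atTop (𝓝 0) := by
    have e1 : Tendsto (fun n : ℕ => 1 / 4 * (n : ℝ) ^ (3 / 4 - 1 / 2 : ℝ)) atTop atTop :=
      ((tendsto_rpow_atTop (by norm_num)).comp tendsto_natCast_atTop_atTop).const_mul_atTop
        (by norm_num)
    have e2 := (Real.tendsto_exp_neg_atTop_nhds_zero.comp e1).const_mul |C0|
    rw [mul_zero] at e2
    exact e2
  filter_upwards [h2.eventually (gt_mem_nhds ht), eventually_ge_atTop 1] with n hn hn1
  have h3 := Pool.Agent.N427.SE.UPX.testX hc hi hd P ω he hexp β (by norm_num : (0 : ℝ) < 1 / 2)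
    (by norm_num : (0 : ℝ) < 1 / 4) h1 (3 / 4) n hn1 h (Set.mem_univ _) 0 0 n le_rfl
  unfold Measure.real
  refine (ENNReal.toReal_mono ENNReal.ofReal_ne_top h3).trans ?_
  rw [ENNReal.toReal_ofReal (by positivity)]
  exact hn.le

lemma small_o (C : ℝ) {t : ℝ} (ht : 0 < t) :
    ∀ᶠ n : ℕ in atTop, C * (n : ℝ) ^ (3 / 4 : ℝ) ≤ t * n := by
  have h1 := pow_dom' (by norm_num : (3 / 4 : ℝ) < 1) (C / t)
  filter_upwards [h1] with n hn
  rw [Real.rpow_one] at hn
  calc C * (n : ℝ) ^ (3 / 4 : ℝ) = t * (C / t * (n : ℝ) ^ (3 / 4 : ℝ)) := by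
        field_simp
    _ ≤ t * n := mul_le_mul_of_nonneg_left hn ht.le

theorem sub_of_conf (hc : S_CONC) (hi : S_ID) (hd : 1 ≤ d) {Ω : Type} [MeasurableSpace Ω]
    (P : Measure Ω) [IsProbabilityMeasure P] (ω : ℕ → (Fin d → ℤ) → Ω → ℝ) (he : IsEnv P ω)
    (hexp : ∀ b : ℝ, Integrable (fun x => Real.exp (b * ω 1 0 x)) P) (β : ℝ)
    {φ : (Fin d → ℝ) → ℝ} {C : ℝ} (hfr : ∀ (h : Fin d → ℝ) (n : ℕ), free P ω β h n ≤ n * φ h)
    (hrate : ∀ (h : Fin d → ℝ) (n : ℕ),
      n * φ h ≤ free P ω β h n + C * Real.sqrt n * Real.log (n + 1))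
    {h v : Fin d → ℝ} {η : ℝ} (hη : 0 < η)
    (H : ∃ᶠ n : ℕ in atTop, η ≤ ∫ x, prob β h (fun i y => ω i y x) n
      (box v (Real.sqrt n) n) ∂P) : Sub φ h v := by
  intro h'
  by_contra hcon
  push Not at hcon
  set δ : ℝ := φ h + ∑ k, (h' k - h k) * v k - φ h' with hδ
  have hδ0 : 0 < δ := by linarith
  have c1 := conc_prob hc hi hd P ω he hexp β h (show (0 : ℝ) < η / 8 by positivity)
  have c2 := conc_prob hc hi hd P ω he hexp β h' (show (0 : ℝ) < η / 8 by positivity)
  set K : ℝ := ∑ k, |h' k - h k| with hK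
  have hK0 : 0 ≤ K := Finset.sum_nonneg fun _ _ => abs_nonneg _
  have c3 := small_o (2 + K + |Real.log (η / 2)|) (show (0 : ℝ) < δ / 2 by positivity)
  have c4 : ∀ᶠ n : ℕ in atTop, C * Real.sqrt n * Real.log (n + 1) ≤ δ / 4 * n := by
    have e1 := Pool.Agent.N700.SE.UPD.ev_log 1 (1 / 4) one_pos (by norm_num)
    have e2 := small_o |C| (show (0 : ℝ) < δ / 4 by positivity)
    filter_upwards [e1, e2, eventually_ge_atTop 1] with n h1 h2 hn1
    have hn0 : (0 : ℝ) < n := by exact_mod_cast hn1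
    rw [one_mul] at h1
    refine le_trans ?_ h2
    have hl : 0 ≤ Real.log ((n : ℝ) + 1) := Real.log_nonneg (by linarith)
    calc C * Real.sqrt n * Real.log (n + 1) ≤ |C| * Real.sqrt n * Real.log (n + 1) := by
          apply mul_le_mul_of_nonneg_right _ hl
          exact mul_le_mul_of_nonneg_right (le_abs_self _) (Real.sqrt_nonneg _)
      _ ≤ |C| * Real.sqrt n * (n : ℝ) ^ (1 / 4 : ℝ) :=
          mul_le_mul_of_nonneg_left h1 (by positivity)
      _ = |C| * (n : ℝ) ^ (3 / 4 : ℝ) := by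
          rw [mul_assoc, Real.sqrt_eq_rpow, ← Real.rpow_add hn0]
          norm_num
  obtain ⟨n, hn, d1, d2, d3, d4, hn1⟩ := (H.and_eventually
    (c1.and (c2.and (c3.and (c4.and (eventually_ge_atTop 1)))))).exists
  have hn' : (1 : ℝ) ≤ n := by exact_mod_cast hn1
  have hn0 : (0 : ℝ) < n := by linarith
  set A := box v (Real.sqrt n) n with hA
  set f : Ω → ℝ := fun x => prob β h (fun i y => ω i y x) n A with hf
  have hfm : Measurable f := measurable_prob β h A he.meas
  have hf0 : ∀ x, 0 ≤ f x := fun x => prob_nonneg _ _ _ _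
  have hf1 : ∀ x, f x ≤ 1 := fun x => prob_le_one hd _ _ _ _
  -- a good point
  obtain ⟨x, hx1, hx2, hx3⟩ : ∃ x, η / 2 ≤ f x ∧
      |lw ω β h 0 0 n x - free P ω β h n| < (n : ℝ) ^ (3 / 4 : ℝ) ∧
      |lw ω β h' 0 0 n x - free P ω β h' n| < (n : ℝ) ^ (3 / 4 : ℝ) := by
    by_contra hno
    push Not at hno
    set B1 := {x | (n : ℝ) ^ (3 / 4 : ℝ) ≤ |lw ω β h 0 0 n x - free P ω β h n|} with hB1
    set B2 := {x | (n : ℝ) ^ (3 / 4 : ℝ) ≤ |lw ω β h' 0 0 n x - free P ω β h' n|} with hB2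
    have m1 : MeasurableSet B1 := measurableSet_le measurable_const
      ((((hc d hd Ω P ω he hexp β h 0 0 n).1).sub_const _).abs)
    have m2 : MeasurableSet B2 := measurableSet_le measurable_const
      ((((hc d hd Ω P ω he hexp β h' 0 0 n).1).sub_const _).abs)
    have hpt : ∀ x, f x ≤ η / 2 + B1.indicator (fun _ => (1 : ℝ)) x +
        B2.indicator (fun _ => (1 : ℝ)) x := by
      intro x
      have i1 : 0 ≤ B1.indicator (fun _ => (1 : ℝ)) x :=
        Set.indicator_nonneg (fun _ _ => zero_le_one) _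
      have i2 : 0 ≤ B2.indicator (fun _ => (1 : ℝ)) x :=
        Set.indicator_nonneg (fun _ _ => zero_le_one) _
      by_cases g1 : η / 2 ≤ f x
      · by_cases g2 : x ∈ B1
        · rw [Set.indicator_of_mem g2]
          have := hf1 x
          linarith
        · have g3 : |lw ω β h 0 0 n x - free P ω β h n| < (n : ℝ) ^ (3 / 4 : ℝ) := by
            by_contra hh
            push Not at hh
            exact g2 hh
          have g4 : x ∈ B2 := hno x g1 g3
          rw [Set.indicator_of_mem g4]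
          have := hf1 x
          linarith
      · push Not at g1
        linarith
    have hi1 : Integrable (B1.indicator (fun _ => (1 : ℝ))) P :=
      (integrable_const (1 : ℝ)).indicator m1
    have hi2 : Integrable (B2.indicator (fun _ => (1 : ℝ))) P :=
      (integrable_const (1 : ℝ)).indicator m2
    have hle : ∫ x, f x ∂P ≤ ∫ x, (η / 2 + B1.indicator (fun _ => (1 : ℝ)) x +
        B2.indicator (fun _ => (1 : ℝ)) x) ∂P := by
      apply integral_mono_of_nonneg (Eventually.of_forall hf0)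
      · exact ((integrable_const _).add hi1).add hi2
      · exact Eventually.of_forall hpt
    have hi3 : Integrable (fun x => η / 2 + B1.indicator (fun _ => (1 : ℝ)) x) P :=
      (integrable_const _).add hi1
    have t1 : ∫ x, (η / 2 + B1.indicator (fun _ => (1 : ℝ)) x +
        B2.indicator (fun _ => (1 : ℝ)) x) ∂P = η / 2 + P.real B1 + P.real B2 := by
      rw [integral_add hi3 hi2, integral_add (integrable_const _) hi1,
        integral_indicator_const _ m1, integral_indicator_const _ m2]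
      simp
    rw [t1] at hle
    have t2 : η ≤ ∫ x, f x ∂P := hn
    linarith
  -- the estimate at this point
  have p1 := part_univ_pos hd β h (fun i y => ω i y x) n
  have p2 := part_univ_pos hd β h' (fun i y => ω i y x) n
  have q1 := part_drift_ge (β := β) (h := h) (h' := h') (η := fun i y => ω i y x) (v := v)
    (r := Real.sqrt n) (A := A) (fun w hw => hw)
  have q2 := part_mono β h' (fun i y => ω i y x) (Set.subset_univ A)
  have q3 : η / 2 * part β h (fun i y => ω i y x) n Set.univ ≤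
      part β h (fun i y => ω i y x) n A := by
    have : η / 2 ≤ part β h (fun i y => ω i y x) n A /
      part β h (fun i y => ω i y x) n Set.univ := hx1
    rwa [le_div_iff₀ p1] at this
  have q4 : Real.exp (∑ k, (h' k - h k) * (n * v k) - K * Real.sqrt n) *
      (η / 2 * part β h (fun i y => ω i y x) n Set.univ) ≤
      part β h' (fun i y => ω i y x) n Set.univ :=
    (mul_le_mul_of_nonneg_left q3 (Real.exp_pos _).le).trans (q1.trans q2)
  have q5 := Real.log_le_log (by positivity) q4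
  rw [Real.log_mul (Real.exp_pos _).ne' (by positivity), Real.log_exp,
    Real.log_mul (by positivity) p1.ne'] at q5
  have l1 : Real.log (part β h (fun i y => ω i y x) n Set.univ) = lw ω β h 0 0 n x :=
    (Pool.Agent.N700.SE.UPD.lw_zero ω β h n x).symm
  have l2 : Real.log (part β h' (fun i y => ω i y x) n Set.univ) = lw ω β h' 0 0 n x :=
    (Pool.Agent.N700.SE.UPD.lw_zero ω β h' n x).symm
  rw [l1, l2] at q5
  have e1 := (abs_lt.1 hx2).1
  have e2 := (abs_lt.1 hx3).2
  have e3 := hfr h' n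
  have e4 := hrate h n
  have e5 : ∑ k, (h' k - h k) * (n * v k) = n * ∑ k, (h' k - h k) * v k := by
    rw [Finset.mul_sum]
    exact Finset.sum_congr rfl fun k _ => by ring
  have e6 : Real.sqrt n ≤ (n : ℝ) ^ (3 / 4 : ℝ) := by
    rw [Real.sqrt_eq_rpow]
    exact Real.rpow_le_rpow_of_exponent_le hn' (by norm_num)
  have e7 : (1 : ℝ) ≤ (n : ℝ) ^ (3 / 4 : ℝ) := Real.one_le_rpow hn' (by norm_num)
  have e8 : K * Real.sqrt n ≤ K * (n : ℝ) ^ (3 / 4 : ℝ) := mul_le_mul_of_nonneg_left e6 hK0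
  have e9 : -(|Real.log (η / 2)| * (n : ℝ) ^ (3 / 4 : ℝ)) ≤ Real.log (η / 2) := by
    have h1 := neg_abs_le (Real.log (η / 2))
    have h2 : |Real.log (η / 2)| * 1 ≤ |Real.log (η / 2)| * (n : ℝ) ^ (3 / 4 : ℝ) :=
      mul_le_mul_of_nonneg_left e7 (abs_nonneg _)
    linarith
  rw [e5] at q5
  have e10 : (n : ℝ) * δ = n * φ h + n * (∑ k, (h' k - h k) * v k) - n * φ h' := by
    rw [hδ]; ring
  have e11 : (2 + K + |Real.log (η / 2)|) * (n : ℝ) ^ (3 / 4 : ℝ) =
      2 * (n : ℝ) ^ (3 / 4 : ℝ) + K * (n : ℝ) ^ (3 / 4 : ℝ) +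
        |Real.log (η / 2)| * (n : ℝ) ^ (3 / 4 : ℝ) := by ring
  rw [e11] at d3
  have e12 : 0 < n * δ := by positivity
  linarith

end Pool.Agent.Z97H.DP
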