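import Mathlib

/-!
# Means and variances of exponential families on finite sets
-/

set_option autoImplicit false

open MeasureTheory

namespace Pool.Agent.Z97H.DP

section

variable {ι : Type} [Fintype ι]

/-- the mean -/
noncomputable def em (c x : ι → ℝ) (s : ℝ) : ℝ :=
  (∑ i, Real.exp (c i + s * x i) * x i) / ∑ i, Real.exp (c i + s * x i)

/-- the variance -/
noncomputable def ev (c x : ι → ℝ) (s : ℝ) : ℝ :=
  (∑ i, Real.exp (c i + s * x i) * (x i - em c x s) ^ 2) / ∑ i, Real.exp (c i + s * x i)

lemma den_pos [Nonempty ι] (c x : ι → ℝ) (s : ℝ) : 0 < ∑ i, Real.exp (c i + s * x i) :=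
  Finset.sum_pos (fun i _ => Real.exp_pos _) Finset.univ_nonempty

lemma ev_nonneg (c x : ι → ℝ) (s : ℝ) : 0 ≤ ev c x s :=
  div_nonneg (Finset.sum_nonneg fun i _ => mul_nonneg (Real.exp_pos _).le (sq_nonneg _))
    (Finset.sum_nonneg fun i _ => (Real.exp_pos _).le)

lemma em_abs_le [Nonempty ι] {c x : ι → ℝ} {K : ℝ} (hx : ∀ i, |x i| ≤ K) (s : ℝ) :
    |em c x s| ≤ K := by
  have h0 := den_pos c x s
  unfold em
  rw [abs_div, abs_of_pos h0, div_le_iff₀ h0]
  refine (Finset.abs_sum_le_sum_abs _ _).trans ?_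
  rw [Finset.mul_sum]
  apply Finset.sum_le_sum
  intro i _
  rw [abs_mul, abs_of_pos (Real.exp_pos _), mul_comm]
  exact mul_le_mul_of_nonneg_right (hx i) (Real.exp_pos _).le

lemma ev_eq [Nonempty ι] (c x : ι → ℝ) (s : ℝ) :
    ev c x s = (∑ i, Real.exp (c i + s * x i) * x i ^ 2) / (∑ i, Real.exp (c i + s * x i)) -
      em c x s ^ 2 := by
  have h0 := (den_pos c x s).ne'
  have h1 : ∑ i, Real.exp (c i + s * x i) * (x i - em c x s) ^ 2 =
      ∑ i, Real.exp (c i + s * x i) * x i ^ 2 -
        2 * em c x s * ∑ i, Real.exp (c i + s * x i) * x i +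
        em c x s ^ 2 * ∑ i, Real.exp (c i + s * x i) := by
    rw [Finset.mul_sum, Finset.mul_sum, ← Finset.sum_sub_distrib, ← Finset.sum_add_distrib]
    exact Finset.sum_congr rfl fun i _ => by ring
  have h2 : ∑ i, Real.exp (c i + s * x i) * x i = em c x s * ∑ i, Real.exp (c i + s * x i) := by
    unfold em
    field_simp
  unfold ev
  rw [h1, h2]
  field_simp
  ring

lemma em_deriv [Nonempty ι] (c x : ι → ℝ) (s : ℝ) : HasDerivAt (em c x) (ev c x s) s := by
  have h0 := (den_pos c x s).ne'
  have h1 : ∀ i, HasDerivAt (fun s => Real.exp (c i + s * x i)) (Real.exp (c i + s * x i) * x i)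
      s := by
    intro i
    have h2 : HasDerivAt (fun s => c i + s * x i) (x i) s := by
      simpa using ((hasDerivAt_id s).mul_const (x i)).const_add (c i)
    exact h2.exp
  have h3 : HasDerivAt (fun s => ∑ i, Real.exp (c i + s * x i))
      (∑ i, Real.exp (c i + s * x i) * x i) s := HasDerivAt.fun_sum fun i _ => h1 i
  have h4 : HasDerivAt (fun s => ∑ i, Real.exp (c i + s * x i) * x i)
      (∑ i, Real.exp (c i + s * x i) * x i * x i) s :=
    HasDerivAt.fun_sum fun i _ => (h1 i).mul_const (x i)
  have h5 := h4.div h3 h0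
  refine h5.congr_deriv ?_
  rw [ev_eq]
  unfold em
  have h6 : ∑ i, Real.exp (c i + s * x i) * x i ^ 2 =
      ∑ i, Real.exp (c i + s * x i) * x i * x i := Finset.sum_congr rfl fun i _ => by ring
  rw [h6]
  field_simp

lemma ev_cont [Nonempty ι] (c x : ι → ℝ) : Continuous (ev c x) := by
  have h1 : Continuous (em c x) := by
    unfold em
    exact Continuous.div (by fun_prop) (by fun_prop) fun s => (den_pos c x s).ne'
  unfold ev
  refine Continuous.div ?_ (by fun_prop) fun s => (den_pos c x s).ne'
  fun_prop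

lemma integral_ev [Nonempty ι] (c x : ι → ℝ) (a b : ℝ) :
    ∫ s in a..b, ev c x s = em c x b - em c x a :=
  intervalIntegral.integral_eq_sub_of_hasDerivAt (fun s _ => em_deriv c x s)
    ((ev_cont c x).intervalIntegrable _ _)

lemma lintegral_ev [Nonempty ι] (c x : ι → ℝ) {a b : ℝ} (hab : a ≤ b) :
    ∫⁻ s in Set.Icc a b, ENNReal.ofReal (ev c x s) =
      ENNReal.ofReal (em c x b - em c x a) := by
  rw [← integral_ev, intervalIntegral.integral_of_le hab, ← integral_Icc_eq_integral_Ioc,
    ofReal_integral_eq_lintegral_ofReal]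
  · exact (ev_cont c x).continuousOn.integrableOn_Icc
  · exact Filter.Eventually.of_forall fun s => ev_nonneg c x s

/-- convexity of `log ∑ exp`: the increments of the logarithm are bounded by the mean -/
lemma log_sub_le [Nonempty ι] (c x : ι → ℝ) (s t : ℝ) :
    Real.log (∑ i, Real.exp (c i + t * x i)) ≥ Real.log (∑ i, Real.exp (c i + s * x i)) +
      (t - s) * em c x s := by
  have h0 := den_pos c x s
  have h1 := den_pos c x t
  have h2 : (∑ i, Real.exp (c i + s * x i)) * Real.exp ((t - s) * em c x s) ≤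
      ∑ i, Real.exp (c i + t * x i) := by
    -- Jensen
    have h3 := ConvexOn.map_sum_le (s := Set.univ) (f := Real.exp) (t := Finset.univ)
      (w := fun i => Real.exp (c i + s * x i) / ∑ j, Real.exp (c j + s * x j))
      (p := fun i => (t - s) * x i) convexOn_exp
      (fun i _ => div_nonneg (Real.exp_pos _).le h0.le)
      (by rw [← Finset.sum_div, div_self h0.ne']) (fun i _ => Set.mem_univ _)
    simp only [smul_eq_mul] at h3
    have h4 : ∑ i, Real.exp (c i + s * x i) / (∑ j, Real.exp (c j + s * x j)) * ((t - s) * x i) =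
        (t - s) * em c x s := by
      unfold em
      rw [← mul_div_assoc, Finset.mul_sum, Finset.sum_div]
      exact Finset.sum_congr rfl fun i _ => by ring
    have h5 : ∑ i, Real.exp (c i + s * x i) / (∑ j, Real.exp (c j + s * x j)) *
        Real.exp ((t - s) * x i) = (∑ i, Real.exp (c i + t * x i)) /
          ∑ j, Real.exp (c j + s * x j) := by
      rw [Finset.sum_div]
      refine Finset.sum_congr rfl fun i _ => ?_
      rw [div_mul_eq_mul_div, ← Real.exp_add]
      congr 2
      ring
    rw [h4, h5, le_div_iff₀ h0] at h3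
    linarith
  have h6 := Real.log_le_log (by positivity) h2
  rw [Real.log_mul h0.ne' (Real.exp_pos _).ne', Real.log_exp] at h6
  exact h6

end

end Pool.Agent.Z97H.DP
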