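import Pool.Agent.N662.SE.Det

/-!
# A matrix inequality for polymer measures with different drifts
-/

set_option autoImplicit false

open MeasureTheory ProbabilityTheory Filter Topology

namespace Pool.Agent.Z97H.DP

open TH967.DP Pool.Agent.N662.SE

/-- the matrix inequality -/
theorem mat {α : Type} (S : Finset α) (a : α → α → ℝ) (ha : ∀ i ∈ S, ∀ j ∈ S, 0 ≤ a i j)
    (hs : ∀ i ∈ S, ∑ j ∈ S, a i j ≤ 1) {K : ℝ} (hK : 0 ≤ K)
    (h : ∀ i ∈ S, ∀ j ∈ S, a i i * a j j ≤ K ^ 2 * (a i j * a j i)) :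
    (∑ i ∈ S, Real.sqrt (a i i)) ^ 2 ≤ K * S.card := by
  have h1 : ∀ i ∈ S, ∀ j ∈ S, Real.sqrt (a i i) * Real.sqrt (a j j) ≤
      K / 2 * a i j + K / 2 * a j i := by
    intro i hi j hj
    have e1 := ha i hi i hi
    have e2 := ha j hj j hj
    have e3 := ha i hi j hj
    have e4 := ha j hj i hi
    rw [← Real.sqrt_mul e1]
    apply Real.sqrt_le_iff.2
    refine ⟨by positivity, ?_⟩
    have h2 : a i j * a j i ≤ (1 / 2 * a i j + 1 / 2 * a j i) ^ 2 := by
      nlinarith [sq_nonneg (a i j - a j i)]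
    calc a i i * a j j ≤ K ^ 2 * (a i j * a j i) := h i hi j hj
      _ ≤ K ^ 2 * (1 / 2 * a i j + 1 / 2 * a j i) ^ 2 :=
          mul_le_mul_of_nonneg_left h2 (sq_nonneg _)
      _ = _ := by ring
  have h2 : (∑ i ∈ S, Real.sqrt (a i i)) ^ 2 =
      ∑ i ∈ S, ∑ j ∈ S, Real.sqrt (a i i) * Real.sqrt (a j j) := by
    rw [sq, Finset.sum_mul_sum]
  rw [h2]
  calc ∑ i ∈ S, ∑ j ∈ S, Real.sqrt (a i i) * Real.sqrt (a j j) ≤
      ∑ i ∈ S, ∑ j ∈ S, (K / 2 * a i j + K / 2 * a j i) :=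
        Finset.sum_le_sum fun i hi => Finset.sum_le_sum fun j hj => h1 i hi j hj
    _ = K / 2 * ∑ i ∈ S, ∑ j ∈ S, a i j + K / 2 * ∑ i ∈ S, ∑ j ∈ S, a i j := by
        have h3 : ∑ i ∈ S, ∑ j ∈ S, K / 2 * a j i = ∑ i ∈ S, ∑ j ∈ S, K / 2 * a i j :=
          Finset.sum_comm
        simp only [Finset.sum_add_distrib]
        rw [h3]
        simp only [← Finset.mul_sum]
    _ = K * ∑ i ∈ S, ∑ j ∈ S, a i j := by ring
    _ ≤ K * ∑ _i ∈ S, (1 : ℝ) :=
        mul_le_mul_of_nonneg_left (Finset.sum_le_sum fun i hi => hs i hi) hK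
    _ = K * S.card := by simp

variable {d n : ℕ}

/-- the product inequality -/
theorem prob_mul_le (hd : 1 ≤ d) {β : ℝ} {h h' v v' : Fin d → ℝ} {r : ℝ}
    {η : ℕ → (Fin d → ℤ) → ℝ} {A A' : Set (Fin n → Step d)}
    (hA : ∀ w ∈ A, ∀ k, |(pos w n k : ℝ) - n * v k| ≤ r)
    (hA' : ∀ w ∈ A', ∀ k, |(pos w n k : ℝ) - n * v' k| ≤ r) :
    prob β h η n A * prob β h' η n A' ≤
      Real.exp (n * (∑ k, (h' k - h k) * (v' k - v k)) + 2 * (∑ k, |h' k - h k|) * r) *
        (prob β h η n A' * prob β h' η n A) := by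
  have e1 := part_drift_le (β := β) (h := h) (h' := h') (η := η) hA'
  have e2 := part_drift_le (β := β) (h := h') (h' := h) (η := η) hA
  have p1 := part_univ_pos hd β h η n
  have p2 := part_univ_pos hd β h' η n
  have q1 := part_nonneg β h η A
  have q2 := part_nonneg β h' η A'
  have q3 := part_nonneg β h' η A
  have q4 := part_nonneg β h η A'
  have e3 : part β h η n A * part β h' η n A' ≤
      (Real.exp (∑ k, (h k - h' k) * (n * v k) + (∑ k, |h k - h' k|) * r) * part β h' η n A) *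
      (Real.exp (∑ k, (h' k - h k) * (n * v' k) + (∑ k, |h' k - h k|) * r) * part β h η n A') :=
    mul_le_mul e2 e1 q2 (by positivity)
  have e4 : ∑ k, (h k - h' k) * (n * v k) + (∑ k, |h k - h' k|) * r +
      (∑ k, (h' k - h k) * (n * v' k) + (∑ k, |h' k - h k|) * r) =
      n * (∑ k, (h' k - h k) * (v' k - v k)) + 2 * (∑ k, |h' k - h k|) * r := by
    have e5 : ∑ k, |h k - h' k| = ∑ k, |h' k - h k| :=
      Finset.sum_congr rfl fun k _ => abs_sub_comm _ _
    have e6 : n * (∑ k, (h' k - h k) * (v' k - v k)) =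
        ∑ k, (h k - h' k) * (n * v k) + ∑ k, (h' k - h k) * (n * v' k) := by
      rw [Finset.mul_sum, ← Finset.sum_add_distrib]
      exact Finset.sum_congr rfl fun k _ => by ring
    rw [e5, e6]
    ring
  unfold prob
  rw [div_mul_div_comm, div_mul_div_comm, ← mul_div_assoc]
  apply div_le_div_of_nonneg_right _ (mul_pos p1 p2).le
  refine e3.trans (le_of_eq ?_)
  rw [← e4, Real.exp_add (∑ k, (h k - h' k) * (n * v k) + (∑ k, |h k - h' k|) * r)]
  generalize Real.exp (∑ k, (h k - h' k) * (n * v k) + (∑ k, |h k - h' k|) * r) = E1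
  generalize Real.exp (∑ k, (h' k - h k) * (n * v' k) + (∑ k, |h' k - h k|) * r) = E2
  ring

/-- disjoint sets -/
theorem sum_prob_le (hd : 1 ≤ d) {α : Type} (S : Finset α) (A : α → Set (Fin n → Step d))
    (hA : ∀ i ∈ S, ∀ j ∈ S, i ≠ j → Disjoint (A i) (A j)) (β : ℝ) (h : Fin d → ℝ)
    (η : ℕ → (Fin d → ℤ) → ℝ) : ∑ i ∈ S, prob β h η n (A i) ≤ 1 := by
  classical
  have p1 := part_univ_pos hd β h η n
  unfold prob
  rw [← Finset.sum_div, div_le_one p1]
  unfold part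
  rw [Finset.sum_comm]
  apply Finset.sum_le_sum
  intro w _
  rw [Set.indicator_of_mem (Set.mem_univ w)]
  by_cases hw : ∃ i ∈ S, w ∈ A i
  · obtain ⟨i, hi, hwi⟩ := hw
    rw [Finset.sum_eq_single_of_mem i hi, Set.indicator_of_mem hwi]
    intro j hj hji
    rw [Set.indicator_of_notMem]
    intro hwj
    exact Set.disjoint_left.1 (hA j hj i hi hji) hwj hwi
  · push Not at hw
    rw [Finset.sum_eq_zero]
    · exact (Real.exp_pos _).le
    · intro i hi
      exact Set.indicator_of_notMem (hw i hi) _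

/-- the main deterministic estimate: for slopes at mutual distance larger than `2 r / n` -/
theorem sum_sqrt_le (hd : 1 ≤ d) {α : Type} (S : Finset α) (h v : α → Fin d → ℝ) {r c : ℝ}
    (hsep : ∀ i ∈ S, ∀ j ∈ S, i ≠ j → ∃ k, 2 * r < n * |v i k - v j k|)
    (hc : ∀ i ∈ S, ∀ j ∈ S, n * (∑ k, (h j k - h i k) * (v j k - v i k)) +
      2 * (∑ k, |h j k - h i k|) * r ≤ 2 * c) (β : ℝ) (η : ℕ → (Fin d → ℤ) → ℝ) :
    (∑ i ∈ S, Real.sqrt (prob β (h i) η n {w | ∀ k, |(pos w n k : ℝ) - n * v i k| ≤ r})) ^ 2 ≤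
      Real.exp c * S.card := by
  apply mat S (fun i j => prob β (h i) η n {w | ∀ k, |(pos w n k : ℝ) - n * v j k| ≤ r})
  · intro i _ j _
    exact prob_nonneg _ _ _ _
  · intro i _
    apply sum_prob_le hd S (fun j => {w | ∀ k, |(pos w n k : ℝ) - n * v j k| ≤ r})
    intro i hi j hj hij
    rw [Set.disjoint_left]
    intro w hw1 hw2
    obtain ⟨k, hk⟩ := hsep i hi j hj hij
    have e1 : |(pos w n k : ℝ) - n * v i k| ≤ r := hw1 k
    have e2 : |(pos w n k : ℝ) - n * v j k| ≤ r := hw2 k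
    have e3 : (n : ℝ) * |v i k - v j k| = |((pos w n k : ℝ) - n * v j k) -
        ((pos w n k : ℝ) - n * v i k)| := by
      rw [← Nat.abs_cast n, ← abs_mul]
      rw [Nat.abs_cast n]
      congr 1
      ring
    have e4 := abs_sub ((pos w n k : ℝ) - n * v j k) ((pos w n k : ℝ) - n * v i k)
    linarith
  · exact (Real.exp_pos _).le
  · intro i hi j hj
    have e1 := prob_mul_le (n := n) hd (β := β) (h := h i) (h' := h j) (v := v i) (v' := v j)
      (r := r) (η := η) (A := {w | ∀ k, |(pos w n k : ℝ) - n * v i k| ≤ r})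
      (A' := {w | ∀ k, |(pos w n k : ℝ) - n * v j k| ≤ r}) (fun w hw => hw) (fun w hw => hw)
    refine e1.trans ?_
    have e2 : Real.exp c ^ 2 = Real.exp (2 * c) := by
      rw [sq, ← Real.exp_add]
      congr 1
      ring
    rw [e2]
    apply mul_le_mul_of_nonneg_right (Real.exp_le_exp.2 (hc i hi j hj))
    exact mul_nonneg (prob_nonneg _ _ _ _) (prob_nonneg _ _ _ _)

end Pool.Agent.Z97H.DP
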