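import Pool.Agent.Z97H.DP.QLow

/-!
# The quenched variance of the end point: assembly
-/

set_option autoImplicit false

open MeasureTheory ProbabilityTheory Filter Topology

namespace Pool.Agent.Z97H.DP

open TH967.DP (Step pos energy)
open Pool.Agent.N662.SE

variable {d : ℕ} {Ω : Type} [MeasurableSpace Ω]

lemma meas_qvar' {ω : ℕ → (Fin d → ℤ) → Ω → ℝ} (hm : ∀ i y, Measurable (ω i y)) (β : ℝ)
    (h : Fin d → ℝ) (n : ℕ) :
    Measurable fun x : Ω => qvar β h (fun i y => ω i y x) n := by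
  have h1 : ∀ w : Fin n → Step d, Measurable fun x : Ω => weight β h (fun i y => ω i y x) w := by
    intro w
    unfold weight energy
    apply Real.measurable_exp.comp
    apply Measurable.add_const
    apply Measurable.const_mul
    exact Finset.measurable_sum _ fun i _ => hm _ _
  unfold qvar
  apply Measurable.div
  · refine Finset.measurable_sum _ fun w _ => (h1 w).mul ?_
    exact Finset.measurable_sum _ fun k _ => ((meas_qmean' hm β h n k).const_sub _).pow_const 2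
  · exact Finset.measurable_sum _ fun w _ => h1 w

lemma meas_qv' {ω : ℕ → (Fin d → ℤ) → Ω → ℝ} (hm : ∀ i y, Measurable (ω i y)) (β : ℝ)
    (h : Fin d → ℝ) (n : ℕ) (k : Fin d) :
    Measurable fun x : Ω => qv β h (fun i y => ω i y x) n k := by
  have h1 : ∀ w : Fin n → Step d, Measurable fun x : Ω => weight β h (fun i y => ω i y x) w := by
    intro w
    unfold weight energy
    apply Real.measurable_exp.comp
    apply Measurable.add_const
    apply Measurable.const_mul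
    exact Finset.measurable_sum _ fun i _ => hm _ _
  unfold qv
  apply Measurable.div
  · refine Finset.measurable_sum _ fun w _ => (h1 w).mul ?_
    exact ((meas_qmean' hm β h n k).const_sub _).pow_const 2
  · exact Finset.measurable_sum _ fun w _ => h1 w

lemma int_qvar (hd : 1 ≤ d) (P : Measure Ω) [IsProbabilityMeasure P]
    {ω : ℕ → (Fin d → ℤ) → Ω → ℝ} (hm : ∀ i y, Measurable (ω i y)) (β : ℝ)
    (h : Fin d → ℝ) (n : ℕ) :
    Integrable (fun x : Ω => qvar β h (fun i y => ω i y x) n) P := by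
  apply (integrable_const (d * (2 * (n : ℝ)) ^ 2)).mono' (meas_qvar' hm β h n).aestronglyMeasurable
  refine Eventually.of_forall fun x => ?_
  rw [Real.norm_eq_abs, abs_of_nonneg (qvar_nonneg _ _ _ _), qvar_eq]
  calc ∑ k, qv β h (fun i y => ω i y x) n k ≤ ∑ _k : Fin d, (2 * (n : ℝ)) ^ 2 :=
        Finset.sum_le_sum fun k _ => qv_le hd _ _ _ _ _
    _ = _ := by simp

lemma ofReal_qvar (hd : 1 ≤ d) (P : Measure Ω) [IsProbabilityMeasure P]
    {ω : ℕ → (Fin d → ℤ) → Ω → ℝ} (hm : ∀ i y, Measurable (ω i y)) (β : ℝ)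
    (h : Fin d → ℝ) (n : ℕ) :
    ENNReal.ofReal (∫ x, qvar β h (fun i y => ω i y x) n ∂P) = ∑ k, qq P ω β n k h := by
  rw [ofReal_integral_eq_lintegral_ofReal (int_qvar hd P hm β h n)
    (Eventually.of_forall fun x => qvar_nonneg _ _ _ _)]
  unfold qq
  rw [← lintegral_finsetSum _ fun k _ => (meas_qv' hm β h n k).ennreal_ofReal]
  apply lintegral_congr
  intro x
  rw [qvar_eq, ENNReal.ofReal_sum_of_nonneg fun k _ => qv_nonneg _ _ _ _ _]

lemma qvar_nonneg' (P : Measure Ω) (ω : ℕ → (Fin d → ℤ) → Ω → ℝ) (β : ℝ) (h : Fin d → ℝ) (n : ℕ) :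
    0 ≤ ∫ x, qvar β h (fun i y => ω i y x) n ∂P := integral_nonneg fun _ => qvar_nonneg _ _ _ _

/-- the double integral -/
lemma box_eq (hd : 1 ≤ d) (P : Measure Ω) [IsProbabilityMeasure P]
    {ω : ℕ → (Fin d → ℤ) → Ω → ℝ} (hm : ∀ i y, Measurable (ω i y)) (β : ℝ) (n : ℕ) {M : ℝ}
    (hM : 0 < M) :
    ENNReal.ofReal (∫ h in Set.Icc (fun _ : Fin d => -M) (fun _ => M),
      ∫ x, qvar β h (fun i y => ω i y x) n ∂P) =
      ∑ k, ∫⁻ h in Set.Icc (fun _ : Fin d => -M) (fun _ => M), qq P ω β n k h := by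
  have e1 : (fun h : Fin d → ℝ => ∫ x, qvar β h (fun i y => ω i y x) n ∂P) =
      fun h => (∑ k, qq P ω β n k h).toReal := by
    funext h
    rw [← ofReal_qvar hd P hm β h n, ENNReal.toReal_ofReal (qvar_nonneg' P ω β h n)]
  have e2 : Measurable fun h : Fin d → ℝ => ∫ x, qvar β h (fun i y => ω i y x) n ∂P := by
    rw [e1]
    exact (Finset.measurable_sum _ fun k _ => meas_qq P hm β n k).ennreal_toReal
  rw [ofReal_integral_eq_lintegral_ofReal]
  · simp only [ofReal_qvar hd P hm]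
    rw [lintegral_finsetSum _ fun k _ => meas_qq P hm β n k]
  · refine ⟨e2.aestronglyMeasurable, ?_⟩
    rw [hasFiniteIntegral_iff_ofReal (Eventually.of_forall fun h => qvar_nonneg' P ω β h n)]
    simp only [ofReal_qvar hd P hm]
    rw [lintegral_finsetSum _ fun k _ => meas_qq P hm β n k]
    refine ENNReal.sum_lt_top.2 fun k _ => lt_of_le_of_lt (qq_box_le hd P hm β n k hM)
      ENNReal.ofReal_lt_top
  · exact Eventually.of_forall fun h => qvar_nonneg' P ω β h n

theorem box_le (hd : 1 ≤ d) (P : Measure Ω) [IsProbabilityMeasure P]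
    {ω : ℕ → (Fin d → ℤ) → Ω → ℝ} (hm : ∀ i y, Measurable (ω i y)) (β : ℝ) (n : ℕ) {M : ℝ}
    (hM : 0 < M) :
    ∫ h in Set.Icc (fun _ : Fin d => -M) (fun _ => M),
      ∫ x, qvar β h (fun i y => ω i y x) n ∂P ≤ (2 * M) ^ d * (d * n / M) := by
  rw [← ENNReal.ofReal_le_ofReal_iff (by positivity), box_eq hd P hm β n hM]
  calc ∑ k, ∫⁻ h in Set.Icc (fun _ : Fin d => -M) (fun _ => M), qq P ω β n k h ≤
      ∑ _k : Fin d, ENNReal.ofReal ((2 * M) ^ d * (n / M)) :=
        Finset.sum_le_sum fun k _ => qq_box_le hd P hm β n k hM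
    _ = _ := by
        rw [Finset.sum_const, Finset.card_univ, Fintype.card_fin, nsmul_eq_mul,
          ← ENNReal.ofReal_natCast, ← ENNReal.ofReal_mul (Nat.cast_nonneg _)]
        congr 1
        ring

theorem box_ge (hd : 1 ≤ d) (P : Measure Ω) [IsProbabilityMeasure P]
    {ω : ℕ → (Fin d → ℤ) → Ω → ℝ} (he : IsEnv P ω)
    (hexp : ∀ b : ℝ, Integrable (fun x => Real.exp (b * ω 1 0 x)) P) (β : ℝ) :
    ∃ M₀ : ℝ, 0 < M₀ ∧ ∀ M : ℝ, M₀ ≤ M → ∀ n : ℕ,
      (n : ℝ) ≤ ∫ h in Set.Icc (fun _ : Fin d => -M) (fun _ => M),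
        ∫ x, qvar β h (fun i y => ω i y x) n ∂P := by
  obtain ⟨φ, C, hφ, hrt⟩ := rate d hd Ω P ω he hexp β
  refine ⟨max 1 (2 * (φ 0 + d - β * ∫ x, ω 1 0 x ∂P)), lt_max_of_lt_left one_pos,
    fun M hM n => ?_⟩
  have hM1 := (le_max_left _ _).trans hM
  have hM2 := (le_max_right _ _).trans hM
  have hM0 : 0 < M := by linarith
  rw [← ENNReal.ofReal_le_ofReal_iff
    (setIntegral_nonneg measurableSet_Icc fun h _ => qvar_nonneg' P ω β h n),
    box_eq hd P he.meas β n hM0]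
  refine (qq_box_ge hd P he hexp β (fun n => (hrt 0 n).1) hM1 hM2 ⟨0, hd⟩ n).trans ?_
  exact Finset.single_le_sum (f := fun k =>
    ∫⁻ h in Set.Icc (fun _ : Fin d => -M) (fun _ => M), qq P ω β n k h)
    (fun _ _ => zero_le) (Finset.mem_univ _)

theorem ae_fin (hd : 1 ≤ d) (P : Measure Ω) [IsProbabilityMeasure P]
    {ω : ℕ → (Fin d → ℤ) → Ω → ℝ} (hm : ∀ i y, Measurable (ω i y)) (β : ℝ) :
    ∀ᵐ h : Fin d → ℝ, ∃ C : ℝ, ∃ᶠ n : ℕ in atTop,
      ∫ x, qvar β h (fun i y => ω i y x) n ∂P ≤ C * n := by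
  set F : ℕ → (Fin d → ℝ) → ENNReal := fun n h =>
    (∑ k, qq P ω β (n + 1) k h) * ENNReal.ofReal (1 / ((n : ℝ) + 1)) with hF
  have hFm : ∀ n, Measurable (F n) := fun n =>
    (Finset.measurable_sum _ fun k _ => meas_qq P hm β (n + 1) k).mul_const _
  have h1 : ∀ M : ℕ, ∀ᵐ h ∂((volume : Measure (Fin d → ℝ)).restrict
      (Set.Icc (fun _ => -((M : ℝ) + 1)) (fun _ => (M : ℝ) + 1))),
      liminf (fun n => F n h) atTop < ⊤ := by
    intro M
    have hM : (0 : ℝ) < (M : ℝ) + 1 := by positivity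
    apply ae_lt_top
    · exact Measurable.liminf hFm
    · refine ne_top_of_le_ne_top ?_ (lintegral_liminf_le hFm)
      have h2 : ∀ n, ∫⁻ h in Set.Icc (fun _ : Fin d => -((M : ℝ) + 1)) (fun _ => (M : ℝ) + 1),
          F n h ≤ ENNReal.ofReal ((2 * ((M : ℝ) + 1)) ^ d * (d / ((M : ℝ) + 1))) := by
        intro n
        simp only [hF]
        rw [lintegral_mul_const _ (Finset.measurable_sum _ fun k _ => meas_qq P hm β (n + 1) k),
          lintegral_finsetSum _ fun k _ => meas_qq P hm β (n + 1) k]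
        calc (∑ k, ∫⁻ h in Set.Icc (fun _ : Fin d => -((M : ℝ) + 1)) (fun _ => (M : ℝ) + 1),
              qq P ω β (n + 1) k h) * ENNReal.ofReal (1 / ((n : ℝ) + 1)) ≤
            (∑ _k : Fin d, ENNReal.ofReal ((2 * ((M : ℝ) + 1)) ^ d *
              (((n + 1 : ℕ) : ℝ) / ((M : ℝ) + 1)))) * ENNReal.ofReal (1 / ((n : ℝ) + 1)) := by
              gcongr with k _
              exact qq_box_le hd P hm β (n + 1) k hM
          _ = _ := by
              rw [Finset.sum_const, Finset.card_univ, Fintype.card_fin, nsmul_eq_mul,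
                ← ENNReal.ofReal_natCast, ← ENNReal.ofReal_mul (Nat.cast_nonneg _),
                ← ENNReal.ofReal_mul (by positivity)]
              congr 1
              push_cast
              field_simp
      refine ne_top_of_le_ne_top ENNReal.ofReal_ne_top
        (liminf_le_of_frequently_le (Eventually.of_forall h2).frequently ?_)
      exact isBoundedUnder_of ⟨0, fun _ => zero_le⟩
  have h3 : ∀ᵐ h : Fin d → ℝ, ∀ M : ℕ, h ∈ Set.Icc (fun _ : Fin d => -((M : ℝ) + 1))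
      (fun _ => (M : ℝ) + 1) → liminf (fun n => F n h) atTop < ⊤ := by
    rw [ae_all_iff]
    intro M
    exact (ae_restrict_iff' measurableSet_Icc).1 (h1 M)
  filter_upwards [h3] with h hh
  obtain ⟨M, hM⟩ := exists_nat_ge ‖h‖
  have h4 := hh M (by
    rw [Set.mem_Icc]
    have h5 : ∀ k, |h k| ≤ (M : ℝ) + 1 := fun k => by
      have := (norm_le_pi_norm h k).trans hM
      rw [Real.norm_eq_abs] at this
      linarith
    exact ⟨fun k => (abs_le.1 (h5 k)).1, fun k => (abs_le.1 (h5 k)).2⟩)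
  obtain ⟨C, hC0, hC⟩ := ENNReal.lt_iff_exists_nnreal_btwn.1 h4
  refine ⟨C, ?_⟩
  have h5 : ∃ᶠ n : ℕ in atTop, F n h < C :=
    frequently_lt_of_liminf_lt (by isBoundedDefault) hC0
  have h6 : ∀ n : ℕ, F n h < C →
      ∫ x, qvar β h (fun i y => ω i y x) (n + 1) ∂P ≤ C * ((n + 1 : ℕ) : ℝ) := by
    intro n hn
    simp only [hF] at hn
    rw [← ofReal_qvar hd P hm β h (n + 1), ← ENNReal.ofReal_mul (qvar_nonneg' P ω β h _),
      ← ENNReal.ofReal_coe_nnreal, ENNReal.ofReal_lt_ofReal_iff_of_nonneg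
        (mul_nonneg (qvar_nonneg' P ω β h _) (by positivity))] at hn
    push_cast
    rw [mul_one_div, div_lt_iff₀ (by positivity)] at hn
    exact hn.le
  rw [frequently_atTop] at h5 ⊢
  intro a
  obtain ⟨b, hb, hb2⟩ := h5 a
  exact ⟨b + 1, by omega, h6 b hb2⟩

end Pool.Agent.Z97H.DP
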