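import Pool.Agent.Z97H.DP.QVar

/-!
# The quenched variance of the end point: lower bound
-/

set_option autoImplicit false

open MeasureTheory ProbabilityTheory Filter Topology

namespace Pool.Agent.Z97H.DP

open TH967.DP (Step pos energy)
open Pool.Agent.N662.SE

variable {d : ℕ} {Ω : Type} [MeasurableSpace Ω]

lemma int_env (P : Measure Ω) [IsProbabilityMeasure P] {ω : ℕ → (Fin d → ℤ) → Ω → ℝ}
    (he : IsEnv P ω) (hexp : ∀ b : ℝ, Integrable (fun x => Real.exp (b * ω 1 0 x)) P)
    (i : ℕ) (y : Fin d → ℤ) : Integrable (ω i y) P ∧ ∫ x, ω i y x ∂P = ∫ x, ω 1 0 x ∂P := by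
  have h1 : Integrable (ω 1 0) P := by
    apply ((hexp 1).add (hexp (-1))).mono' (he.meas 1 0).aestronglyMeasurable
    refine Eventually.of_forall fun x => ?_
    rw [Real.norm_eq_abs]
    have e1 := Real.add_one_le_exp (ω 1 0 x)
    have e2 := Real.add_one_le_exp (-ω 1 0 x)
    have e3 := Real.exp_pos (ω 1 0 x)
    have e4 := Real.exp_pos (-ω 1 0 x)
    show |ω 1 0 x| ≤ Real.exp (1 * ω 1 0 x) + Real.exp (-1 * ω 1 0 x)
    rw [one_mul, neg_one_mul, abs_le]
    constructor <;> linarith
  exact ⟨(he.ident i y).integrable_iff.2 h1, (he.ident i y).integral_eq⟩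

lemma free_ge (hd : 1 ≤ d) (P : Measure Ω) [IsProbabilityMeasure P]
    {ω : ℕ → (Fin d → ℤ) → Ω → ℝ} (he : IsEnv P ω)
    (hexp : ∀ b : ℝ, Integrable (fun x => Real.exp (b * ω 1 0 x)) P) (β : ℝ) (h : Fin d → ℝ)
    (n : ℕ) (k : Fin d) (b : Bool) :
    n * (β * ∫ x, ω 1 0 x ∂P) + (if b then h k else -h k) * n ≤ free P ω β h n := by
  have h1 : ∀ x, β * energy (fun i y => ω i y x) (fun _ : Fin n => ((k, b) : Step d)) +
      (if b then h k else -h k) * n ≤ lw ω β h 0 0 n x := by
    intro x
    rw [Pool.Agent.N700.SE.UPD.lw_zero]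
    exact part_straight hd β h _ n k b
  have hE : ∀ i : Fin n, Integrable (fun x => ω (i.val + 1)
      (pos (fun _ : Fin n => ((k, b) : Step d)) (i.val + 1)) x) P :=
    fun i => (int_env P he hexp _ _).1
  have h2 : Integrable (fun x => energy (fun i y => ω i y x)
      (fun _ : Fin n => ((k, b) : Step d))) P := by
    unfold energy
    exact integrable_finsetSum _ fun i _ => hE i
  have h3 : ∫ x, energy (fun i y => ω i y x) (fun _ : Fin n => ((k, b) : Step d)) ∂P =
      n * ∫ x, ω 1 0 x ∂P := by
    unfold energy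
    rw [integral_finsetSum _ fun i _ => hE i]
    rw [Finset.sum_congr rfl fun i _ => (int_env P he hexp _ _).2]
    simp
  have hi := (conc d hd Ω P ω he hexp β h 0 0 n).2.1
  have h4 : ∫ x, (β * energy (fun i y => ω i y x) (fun _ : Fin n => ((k, b) : Step d)) +
      (if b then h k else -h k) * n) ∂P ≤ ∫ x, lw ω β h 0 0 n x ∂P :=
    integral_mono ((h2.const_mul β).add (integrable_const _)) hi h1
  rw [integral_add (h2.const_mul β) (integrable_const _), integral_const_mul, h3,
    integral_const] at h4
  simp only [probReal_univ, one_smul] at h4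
  unfold free
  linarith

lemma free_lip (hd : 1 ≤ d) (P : Measure Ω) [IsProbabilityMeasure P]
    {ω : ℕ → (Fin d → ℤ) → Ω → ℝ} (he : IsEnv P ω)
    (hexp : ∀ b : ℝ, Integrable (fun x => Real.exp (b * ω 1 0 x)) P) (β : ℝ) (h : Fin d → ℝ)
    (n : ℕ) : free P ω β h n ≤ free P ω β 0 n + n * ∑ k, |h k| := by
  have h1 : ∀ x, lw ω β h 0 0 n x ≤ lw ω β 0 0 0 n x + n * ∑ k, |h k| := by
    intro x
    rw [Pool.Agent.N700.SE.UPD.lw_zero, Pool.Agent.N700.SE.UPD.lw_zero]
    have p1 := part_univ_pos hd β h (fun i y => ω i y x) n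
    have p2 := part_univ_pos hd β 0 (fun i y => ω i y x) n
    have e1 : part β h (fun i y => ω i y x) n Set.univ ≤
        part β 0 (fun i y => ω i y x) n Set.univ * Real.exp (n * ∑ k, |h k|) := by
      unfold part
      rw [Finset.sum_mul]
      apply Finset.sum_le_sum
      intro w _
      simp only [Set.indicator_univ, Pi.zero_apply, zero_mul, Finset.sum_const_zero, add_zero]
      rw [← Real.exp_add]
      apply Real.exp_le_exp.2
      have e2 : ∑ k, h k * (pos w n k : ℝ) ≤ n * ∑ k, |h k| := by
        rw [Finset.mul_sum]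
        apply Finset.sum_le_sum
        intro k _
        have e3 : |(pos w n k : ℝ)| ≤ n := by exact_mod_cast pos_abs w n k
        calc h k * (pos w n k : ℝ) ≤ |h k * (pos w n k : ℝ)| := le_abs_self _
          _ = |(pos w n k : ℝ)| * |h k| := by rw [abs_mul, mul_comm]
          _ ≤ n * |h k| := mul_le_mul_of_nonneg_right e3 (abs_nonneg _)
      linarith
    have e4 := Real.log_le_log p1 e1
    rwa [Real.log_mul p2.ne' (Real.exp_pos _).ne', Real.log_exp] at e4
  have hi := (conc d hd Ω P ω he hexp β h 0 0 n).2.1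
  have hi0 := (conc d hd Ω P ω he hexp β 0 0 0 n).2.1
  unfold free
  calc ∫ x, lw ω β h 0 0 n x ∂P ≤ ∫ x, (lw ω β 0 0 0 n x + n * ∑ k, |h k|) ∂P :=
        integral_mono hi (hi0.add (integrable_const _)) h1
    _ = _ := by
        rw [integral_add hi0 (integrable_const _), integral_const]
        simp

omit [MeasurableSpace Ω] in
lemma lw_update (ω : ℕ → (Fin d → ℤ) → Ω → ℝ) (β : ℝ) (h : Fin d → ℝ) (k : Fin d) (s : ℝ) (n : ℕ)
    (x : Ω) : lw ω β (Function.update h k s) 0 0 n x =
      Real.log (∑ w, Real.exp (cc β h (fun i y => ω i y x) n k w + s * xx n k w)) := by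
  rw [lw_eq]
  simp only [weight_update]

lemma meas_qmean' {ω : ℕ → (Fin d → ℤ) → Ω → ℝ} (hm : ∀ i y, Measurable (ω i y)) (β : ℝ)
    (h : Fin d → ℝ) (n : ℕ) (k : Fin d) :
    Measurable fun x : Ω => qmean β h (fun i y => ω i y x) n k := by
  have h1 : ∀ w : Fin n → Step d, Measurable fun x : Ω => weight β h (fun i y => ω i y x) w := by
    intro w
    unfold weight energy
    apply Real.measurable_exp.comp
    apply Measurable.add_const
    apply Measurable.const_mul
    exact Finset.measurable_sum _ fun i _ => hm _ _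
  unfold qmean
  apply Measurable.div
  · exact Finset.measurable_sum _ fun w _ => (h1 w).mul_const _
  · exact Finset.measurable_sum _ fun w _ => h1 w

lemma int_qmean (hd : 1 ≤ d) (P : Measure Ω) [IsProbabilityMeasure P]
    {ω : ℕ → (Fin d → ℤ) → Ω → ℝ} (hm : ∀ i y, Measurable (ω i y)) (β : ℝ)
    (h : Fin d → ℝ) (n : ℕ) (k : Fin d) :
    Integrable (fun x : Ω => qmean β h (fun i y => ω i y x) n k) P := by
  have := nonempty_walk hd n
  apply (integrable_const (n : ℝ)).mono' (meas_qmean' hm β h n k).aestronglyMeasurable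
  refine Eventually.of_forall fun x => ?_
  rw [Real.norm_eq_abs]
  have e1 : h = Function.update h k (h k) := (Function.update_eq_self k h).symm
  rw [e1, qmean_update]
  exact em_abs_le (xx_le k) _

/-- the lower bound on a segment -/
lemma mean_diff (hd : 1 ≤ d) (P : Measure Ω) [IsProbabilityMeasure P]
    {ω : ℕ → (Fin d → ℤ) → Ω → ℝ} (he : IsEnv P ω)
    (hexp : ∀ b : ℝ, Integrable (fun x => Real.exp (b * ω 1 0 x)) P) (β : ℝ) {Φ : ℝ}
    (hΦ : ∀ n : ℕ, free P ω β 0 n ≤ n * Φ) {M : ℝ} (hM : 0 < M)
    (hM2 : 2 * (Φ + d - β * ∫ x, ω 1 0 x ∂P) ≤ M) (h : Fin d → ℝ)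
    (k : Fin d) (hk : ∀ j, j ≠ k → |h j| ≤ 1) (n : ℕ) :
    (n : ℝ) ≤ ∫ x, (qmean β (Function.update h k M) (fun i y => ω i y x) n k -
      qmean β (Function.update h k (-M)) (fun i y => ω i y x) n k) ∂P := by
  have := nonempty_walk hd n
  have hpt : ∀ x, lw ω β (Function.update h k M) 0 0 n x +
      lw ω β (Function.update h k (-M)) 0 0 n x - 2 * lw ω β (Function.update h k 0) 0 0 n x ≤
      M * (qmean β (Function.update h k M) (fun i y => ω i y x) n k -
        qmean β (Function.update h k (-M)) (fun i y => ω i y x) n k) := by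
    intro x
    rw [lw_update, lw_update, lw_update, qmean_update, qmean_update]
    have e1 := log_sub_le (cc β h (fun i y => ω i y x) n k) (xx n k) M 0
    have e2 := log_sub_le (cc β h (fun i y => ω i y x) n k) (xx n k) (-M) 0
    linarith
  have i1 := (conc d hd Ω P ω he hexp β (Function.update h k M) 0 0 n).2.1
  have i2 := (conc d hd Ω P ω he hexp β (Function.update h k (-M)) 0 0 n).2.1
  have i3 := (conc d hd Ω P ω he hexp β (Function.update h k 0) 0 0 n).2.1
  have j1 := int_qmean hd P he.meas β (Function.update h k M) n k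
  have j2 := int_qmean hd P he.meas β (Function.update h k (-M)) n k
  have h1 : ∫ x, (lw ω β (Function.update h k M) 0 0 n x +
      lw ω β (Function.update h k (-M)) 0 0 n x -
        2 * lw ω β (Function.update h k 0) 0 0 n x) ∂P ≤
      ∫ x, M * (qmean β (Function.update h k M) (fun i y => ω i y x) n k -
        qmean β (Function.update h k (-M)) (fun i y => ω i y x) n k) ∂P :=
    integral_mono ((i1.add i2).sub (i3.const_mul 2)) ((j1.sub j2).const_mul M) hpt
  have h12 : Integrable (fun x => lw ω β (Function.update h k M) 0 0 n x +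
      lw ω β (Function.update h k (-M)) 0 0 n x) P := i1.add i2
  rw [integral_const_mul, integral_sub h12 (i3.const_mul 2), integral_add i1 i2,
    integral_const_mul] at h1
  have g1 := free_ge hd P he hexp β (Function.update h k M) n k true
  have g2 := free_ge hd P he hexp β (Function.update h k (-M)) n k false
  have g3 := free_lip hd P he hexp β (Function.update h k 0) n
  have g4 := hΦ n
  have g5 : ∑ j, |Function.update h k 0 j| ≤ d := by
    calc ∑ j, |Function.update h k 0 j| ≤ ∑ _j : Fin d, (1 : ℝ) := by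
          apply Finset.sum_le_sum
          intro j _
          by_cases hj : j = k
          · rw [hj, Function.update_self]
            simp
          · rw [Function.update_of_ne hj]
            exact hk j hj
      _ = d := by simp
  simp only [Function.update_self, if_true, Bool.false_eq_true, if_false, neg_neg] at g1 g2
  have g6 : (n : ℝ) * ∑ j, |Function.update h k 0 j| ≤ n * d :=
    mul_le_mul_of_nonneg_left g5 (Nat.cast_nonneg n)
  have g7 : M * n ≤ M * ∫ x, (qmean β (Function.update h k M) (fun i y => ω i y x) n k -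
        qmean β (Function.update h k (-M)) (fun i y => ω i y x) n k) ∂P := by
    have g8 : free P ω β (Function.update h k M) n = ∫ x, lw ω β (Function.update h k M) 0 0 n x ∂P :=
      rfl
    have g9 : free P ω β (Function.update h k (-M)) n =
      ∫ x, lw ω β (Function.update h k (-M)) 0 0 n x ∂P := rfl
    have g10 : free P ω β (Function.update h k 0) n =
      ∫ x, lw ω β (Function.update h k 0) 0 0 n x ∂P := rfl
    have g11 : (n : ℝ) * (2 * (Φ + d - β * ∫ x, ω 1 0 x ∂P)) ≤ n * M :=
      mul_le_mul_of_nonneg_left hM2 (Nat.cast_nonneg n)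
    nlinarith
  exact le_of_mul_le_mul_left g7 hM

lemma qq_line_ge (hd : 1 ≤ d) (P : Measure Ω) [IsProbabilityMeasure P]
    {ω : ℕ → (Fin d → ℤ) → Ω → ℝ} (he : IsEnv P ω)
    (hexp : ∀ b : ℝ, Integrable (fun x => Real.exp (b * ω 1 0 x)) P) (β : ℝ) {Φ : ℝ}
    (hΦ : ∀ n : ℕ, free P ω β 0 n ≤ n * Φ) {M : ℝ} (hM : 0 < M)
    (hM2 : 2 * (Φ + d - β * ∫ x, ω 1 0 x ∂P) ≤ M) (h : Fin d → ℝ)
    (k : Fin d) (hk : ∀ j, j ≠ k → |h j| ≤ 1) (n : ℕ) :
    ENNReal.ofReal n ≤ ∫⁻ s in Set.Icc (-M) M, qq P ω β n k (Function.update h k s) := by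
  have := nonempty_walk hd n
  rw [qq_line hd P he.meas β n k h (by linarith), ← ofReal_integral_eq_lintegral_ofReal]
  · exact ENNReal.ofReal_le_ofReal (mean_diff hd P he hexp β hΦ hM hM2 h k hk n)
  · exact (int_qmean hd P he.meas β _ n k).sub (int_qmean hd P he.meas β _ n k)
  · refine Eventually.of_forall fun x => ?_
    show 0 ≤ qmean β (Function.update h k M) (fun i y => ω i y x) n k -
      qmean β (Function.update h k (-M)) (fun i y => ω i y x) n k
    rw [qmean_update, qmean_update, ← integral_ev]
    exact intervalIntegral.integral_nonneg (by linarith) fun s _ => ev_nonneg _ _ _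

lemma qq_box_ge (hd : 1 ≤ d) (P : Measure Ω) [IsProbabilityMeasure P]
    {ω : ℕ → (Fin d → ℤ) → Ω → ℝ} (he : IsEnv P ω)
    (hexp : ∀ b : ℝ, Integrable (fun x => Real.exp (b * ω 1 0 x)) P) (β : ℝ) {Φ : ℝ}
    (hΦ : ∀ n : ℕ, free P ω β 0 n ≤ n * Φ) {M : ℝ} (hM : 1 ≤ M)
    (hM2 : 2 * (Φ + d - β * ∫ x, ω 1 0 x ∂P) ≤ M) (k : Fin d) (n : ℕ) :
    ENNReal.ofReal n ≤
      ∫⁻ h in Set.Icc (fun _ : Fin d => -M) (fun _ => M), qq P ω β n k h := by
  classical
  rw [vol_box]
  set S : Set (Fin d → ℝ) := Set.pi Set.univ fun j => if j = k then Set.univ else Set.Icc (-1) 1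
    with hS
  have hSm : MeasurableSet S := by
    apply MeasurableSet.univ_pi
    intro j
    by_cases hj : j = k
    · simp [hj]
    · simp [hj, measurableSet_Icc]
  have hM0 : 0 < M := by linarith
  have hmem : ∀ (h : Fin d → ℝ) (s : ℝ), Function.update h k s ∈ S ↔ h ∈ S := by
    intro h s
    simp only [hS, Set.mem_pi, Set.mem_univ, forall_true_left]
    apply forall_congr'
    intro j
    by_cases hj : j = k
    · simp [hj]
    · rw [Function.update_of_ne hj]
  calc ENNReal.ofReal n ≤ ∫⁻ h, S.indicator (fun _ => ENNReal.ofReal (n / (2 * M))) h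
        ∂(Measure.pi fun _ : Fin d => volume.restrict (Set.Icc (-M) M)) := by
        rw [lintegral_indicator_const hSm, hS, Measure.pi_pi]
        have e1 : ∀ j : Fin d, (volume.restrict (Set.Icc (-M) M))
            (if j = k then Set.univ else Set.Icc (-1 : ℝ) 1) =
            if j = k then ENNReal.ofReal (2 * M) else ENNReal.ofReal 2 := by
          intro j
          by_cases hj : j = k
          · rw [if_pos hj, if_pos hj, Measure.restrict_apply_univ, Real.volume_Icc]
            congr 1
            ring
          · rw [if_neg hj, if_neg hj, Measure.restrict_apply measurableSet_Icc,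
              Set.inter_eq_left.2 (Set.Icc_subset_Icc (by linarith) hM), Real.volume_Icc]
            norm_num
        rw [Finset.prod_congr rfl fun j _ => e1 j,
          ← Finset.mul_prod_erase Finset.univ _ (Finset.mem_univ k), if_pos rfl]
        have e2 : (1 : ENNReal) ≤ ∏ j ∈ Finset.univ.erase k,
            (if j = k then ENNReal.ofReal (2 * M) else ENNReal.ofReal 2) := by
          apply Finset.one_le_prod'
          intro j hj
          rw [if_neg (Finset.ne_of_mem_erase hj)]
          rw [ENNReal.one_le_ofReal]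
          norm_num
        calc ENNReal.ofReal n = ENNReal.ofReal (n / (2 * M)) * (ENNReal.ofReal (2 * M) * 1) := by
              rw [mul_one, ← ENNReal.ofReal_mul (by positivity)]
              congr 1
              field_simp
          _ ≤ _ := by gcongr
    _ ≤ ∫⁻ h, qq P ω β n k h
        ∂(Measure.pi fun _ : Fin d => volume.restrict (Set.Icc (-M) M)) := by
        apply lintegral_le_of_lmarginal_le {k} (measurable_const.indicator hSm)
          (meas_qq P he.meas β n k)
        rw [lmarginal_singleton, lmarginal_singleton]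
        intro h
        show ∫⁻ s in Set.Icc (-M) M, S.indicator (fun _ => ENNReal.ofReal (n / (2 * M)))
          (Function.update h k s) ≤
          ∫⁻ s in Set.Icc (-M) M, qq P ω β n k (Function.update h k s)
        by_cases hh : h ∈ S
        · have e3 : ∀ s : ℝ, S.indicator (fun _ => ENNReal.ofReal (n / (2 * M)))
              (Function.update h k s) = ENNReal.ofReal (n / (2 * M)) := fun s =>
            Set.indicator_of_mem ((hmem h s).2 hh) _
          simp only [e3]
          rw [setLIntegral_const, Real.volume_Icc, ← ENNReal.ofReal_mul (by positivity)]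
          refine le_trans (le_of_eq ?_) (qq_line_ge hd P he hexp β hΦ hM0 hM2 h k ?_ n)
          · congr 1
            field_simp
            ring
          · intro j hj
            have e4 : h j ∈ (if j = k then Set.univ else Set.Icc (-1 : ℝ) 1) :=
              hh j (Set.mem_univ j)
            rw [if_neg hj] at e4
            exact abs_le.2 e4
        · have e3 : ∀ s : ℝ, S.indicator (fun _ => ENNReal.ofReal (n / (2 * M)))
              (Function.update h k s) = 0 := fun s =>
            Set.indicator_of_notMem (fun h5 => hh ((hmem h s).1 h5)) _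
          simp only [e3]
          simp

end Pool.Agent.Z97H.DP
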