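import Pool.Agent.Z97H.DP.LSE
import Pool.Agent.Z97H.DP.Fin

/-!
# The quenched variance of the end point
-/

set_option autoImplicit false

open MeasureTheory ProbabilityTheory Filter Topology

namespace Pool.Agent.Z97H.DP

open TH967.DP (Step pos energy)
open Pool.Agent.N662.SE

variable {d : ℕ}

/-- The mean `E_n^h(S_n)_k` of the `k`-th coordinate of the end point under the polymer measure
with inverse temperature `β` and drift `h` in the environment `η`. -/
noncomputable def qmean (β : ℝ) (h : Fin d → ℝ) (η : ℕ → (Fin d → ℤ) → ℝ) (n : ℕ) (k : Fin d) :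
    ℝ :=
  (∑ w : Fin n → Step d, weight β h η w * (pos w n k : ℝ)) / ∑ w : Fin n → Step d, weight β h η w

/-- The variance of the `k`-th coordinate of the end point under the polymer measure. -/
noncomputable def qv (β : ℝ) (h : Fin d → ℝ) (η : ℕ → (Fin d → ℤ) → ℝ) (n : ℕ) (k : Fin d) :
    ℝ :=
  (∑ w : Fin n → Step d, weight β h η w * ((pos w n k : ℝ) - qmean β h η n k) ^ 2) /
    ∑ w : Fin n → Step d, weight β h η w

/-- The variance `E_n^h ‖S_n - E_n^h S_n‖²` of the end point under the polymer measure. -/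
noncomputable def qvar (β : ℝ) (h : Fin d → ℝ) (η : ℕ → (Fin d → ℤ) → ℝ) (n : ℕ) : ℝ :=
  (∑ w : Fin n → Step d, weight β h η w * ∑ k, ((pos w n k : ℝ) - qmean β h η n k) ^ 2) /
    ∑ w : Fin n → Step d, weight β h η w

lemma qvar_eq (β : ℝ) (h : Fin d → ℝ) (η : ℕ → (Fin d → ℤ) → ℝ) (n : ℕ) :
    qvar β h η n = ∑ k, qv β h η n k := by
  unfold qvar qv
  rw [← Finset.sum_div]
  congr 1
  rw [Finset.sum_comm]
  exact Finset.sum_congr rfl fun w _ => Finset.mul_sum _ _ _

/-- the constant part of the exponent -/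
noncomputable def cc (β : ℝ) (h : Fin d → ℝ) (η : ℕ → (Fin d → ℤ) → ℝ) (n : ℕ) (k : Fin d)
    (w : Fin n → Step d) : ℝ :=
  β * energy η w + ∑ j ∈ Finset.univ.erase k, h j * (pos w n j : ℝ)

/-- the coordinate -/
noncomputable def xx (n : ℕ) (k : Fin d) (w : Fin n → Step d) : ℝ := (pos w n k : ℝ)

lemma weight_update (β : ℝ) (h : Fin d → ℝ) (η : ℕ → (Fin d → ℤ) → ℝ) {n : ℕ} (k : Fin d) (s : ℝ)
    (w : Fin n → Step d) :
    weight β (Function.update h k s) η w = Real.exp (cc β h η n k w + s * xx n k w) := by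
  unfold weight cc xx
  congr 1
  rw [← Finset.add_sum_erase Finset.univ _ (Finset.mem_univ k), Function.update_self]
  have h1 : ∑ j ∈ Finset.univ.erase k, Function.update h k s j * (pos w n j : ℝ) =
      ∑ j ∈ Finset.univ.erase k, h j * (pos w n j : ℝ) := by
    apply Finset.sum_congr rfl
    intro j hj
    rw [Function.update_of_ne (Finset.ne_of_mem_erase hj)]
  rw [h1]
  ring

lemma qmean_update (β : ℝ) (h : Fin d → ℝ) (η : ℕ → (Fin d → ℤ) → ℝ) (n : ℕ) (k : Fin d) (s : ℝ) :
    qmean β (Function.update h k s) η n k = em (cc β h η n k) (xx n k) s := by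
  unfold qmean em
  simp only [weight_update]
  rfl

lemma qv_update (β : ℝ) (h : Fin d → ℝ) (η : ℕ → (Fin d → ℤ) → ℝ) (n : ℕ) (k : Fin d) (s : ℝ) :
    qv β (Function.update h k s) η n k = ev (cc β h η n k) (xx n k) s := by
  unfold qv ev
  simp only [weight_update, qmean_update]
  rfl

lemma nonempty_walk (hd : 1 ≤ d) (n : ℕ) : Nonempty (Fin n → Step d) :=
  ⟨fun _ => (⟨0, hd⟩, true)⟩

lemma xx_le {n : ℕ} (k : Fin d) (w : Fin n → Step d) : |xx n k w| ≤ n := by
  unfold xx
  exact_mod_cast pos_abs w n k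

lemma qv_nonneg (β : ℝ) (h : Fin d → ℝ) (η : ℕ → (Fin d → ℤ) → ℝ) (n : ℕ) (k : Fin d) :
    0 ≤ qv β h η n k :=
  div_nonneg (Finset.sum_nonneg fun _ _ => mul_nonneg (Real.exp_pos _).le (sq_nonneg _))
    (Finset.sum_nonneg fun _ _ => (Real.exp_pos _).le)

lemma qvar_nonneg (β : ℝ) (h : Fin d → ℝ) (η : ℕ → (Fin d → ℤ) → ℝ) (n : ℕ) :
    0 ≤ qvar β h η n := by
  rw [qvar_eq]
  exact Finset.sum_nonneg fun k _ => qv_nonneg _ _ _ _ _

lemma qv_le (hd : 1 ≤ d) (β : ℝ) (h : Fin d → ℝ) (η : ℕ → (Fin d → ℤ) → ℝ) (n : ℕ) (k : Fin d) :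
    qv β h η n k ≤ (2 * n) ^ 2 := by
  have := nonempty_walk hd n
  have e1 : h = Function.update h k (h k) := (Function.update_eq_self k h).symm
  rw [e1, qv_update]
  have h0 := den_pos (cc β h η n k) (xx n k) (h k)
  unfold ev
  rw [div_le_iff₀ h0, Finset.mul_sum]
  apply Finset.sum_le_sum
  intro w _
  rw [mul_comm]
  apply mul_le_mul_of_nonneg_right _ (Real.exp_pos _).le
  rw [← sq_abs]
  apply pow_le_pow_left₀ (abs_nonneg _)
  have h1 := xx_le k w
  have h2 := em_abs_le (c := cc β h η n k) (xx_le k) (h k)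
  calc |xx n k w - em (cc β h η n k) (xx n k) (h k)| ≤ |xx n k w| +
      |em (cc β h η n k) (xx n k) (h k)| := abs_sub _ _
    _ ≤ 2 * n := by linarith

section meas

variable {Ω : Type} [MeasurableSpace Ω]

lemma meas_weight {ω : ℕ → (Fin d → ℤ) → Ω → ℝ} (hm : ∀ i y, Measurable (ω i y)) (β : ℝ) {n : ℕ}
    (w : Fin n → Step d) :
    Measurable fun p : (Fin d → ℝ) × Ω => weight β p.1 (fun i y => ω i y p.2) w := by
  unfold weight energy
  apply Real.measurable_exp.comp
  apply Measurable.add
  · apply Measurable.const_mul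
    exact Finset.measurable_sum _ fun i _ => (hm _ _).comp measurable_snd
  · exact Finset.measurable_sum _ fun i _ =>
      ((measurable_pi_apply i).comp measurable_fst).mul_const _

lemma meas_qmean {ω : ℕ → (Fin d → ℤ) → Ω → ℝ} (hm : ∀ i y, Measurable (ω i y)) (β : ℝ) (n : ℕ)
    (k : Fin d) :
    Measurable fun p : (Fin d → ℝ) × Ω => qmean β p.1 (fun i y => ω i y p.2) n k := by
  unfold qmean
  apply Measurable.div
  · exact Finset.measurable_sum _ fun w _ => (meas_weight hm β w).mul_const _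
  · exact Finset.measurable_sum _ fun w _ => meas_weight hm β w

lemma meas_qv {ω : ℕ → (Fin d → ℤ) → Ω → ℝ} (hm : ∀ i y, Measurable (ω i y)) (β : ℝ) (n : ℕ)
    (k : Fin d) :
    Measurable fun p : (Fin d → ℝ) × Ω => qv β p.1 (fun i y => ω i y p.2) n k := by
  unfold qv
  apply Measurable.div
  · exact Finset.measurable_sum _ fun w _ => (meas_weight hm β w).mul
      (((meas_qmean hm β n k).const_sub _).pow_const 2)
  · exact Finset.measurable_sum _ fun w _ => meas_weight hm β w

/-- the mean over the environment, as an extended real -/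
noncomputable def qq (P : Measure Ω) (ω : ℕ → (Fin d → ℤ) → Ω → ℝ) (β : ℝ) (n : ℕ) (k : Fin d)
    (h : Fin d → ℝ) : ENNReal :=
  ∫⁻ x, ENNReal.ofReal (qv β h (fun i y => ω i y x) n k) ∂P

lemma meas_qq (P : Measure Ω) [IsProbabilityMeasure P] {ω : ℕ → (Fin d → ℤ) → Ω → ℝ}
    (hm : ∀ i y, Measurable (ω i y)) (β : ℝ) (n : ℕ) (k : Fin d) :
    Measurable (qq P ω β n k) := by
  unfold qq
  exact Measurable.lintegral_prod_right'
    (f := fun p : (Fin d → ℝ) × Ω => ENNReal.ofReal (qv β p.1 (fun i y => ω i y p.2) n k))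
    (meas_qv hm β n k).ennreal_ofReal

/-- the integral over a segment -/
lemma qq_line (hd : 1 ≤ d) (P : Measure Ω) [IsProbabilityMeasure P]
    {ω : ℕ → (Fin d → ℤ) → Ω → ℝ} (hm : ∀ i y, Measurable (ω i y)) (β : ℝ) (n : ℕ) (k : Fin d)
    (h : Fin d → ℝ) {a b : ℝ} (hab : a ≤ b) :
    ∫⁻ s in Set.Icc a b, qq P ω β n k (Function.update h k s) =
      ∫⁻ x, ENNReal.ofReal (qmean β (Function.update h k b) (fun i y => ω i y x) n k -
        qmean β (Function.update h k a) (fun i y => ω i y x) n k) ∂P := by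
  have := nonempty_walk hd n
  unfold qq
  rw [lintegral_lintegral_swap]
  · apply lintegral_congr
    intro x
    simp only [qv_update, qmean_update]
    exact lintegral_ev _ _ hab
  · apply Measurable.aemeasurable
    have h1 : Measurable fun p : ℝ × Ω => (Function.update h k p.1, p.2) :=
      ((measurable_update h).comp measurable_fst).prodMk measurable_snd
    exact ((meas_qv hm β n k).comp h1).ennreal_ofReal

lemma qq_line_le (hd : 1 ≤ d) (P : Measure Ω) [IsProbabilityMeasure P]
    {ω : ℕ → (Fin d → ℤ) → Ω → ℝ} (hm : ∀ i y, Measurable (ω i y)) (β : ℝ) (n : ℕ) (k : Fin d)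
    (h : Fin d → ℝ) {a b : ℝ} (hab : a ≤ b) :
    ∫⁻ s in Set.Icc a b, qq P ω β n k (Function.update h k s) ≤ ENNReal.ofReal (2 * n) := by
  have := nonempty_walk hd n
  rw [qq_line hd P hm β n k h hab]
  calc ∫⁻ x, ENNReal.ofReal (qmean β (Function.update h k b) (fun i y => ω i y x) n k -
        qmean β (Function.update h k a) (fun i y => ω i y x) n k) ∂P ≤
        ∫⁻ _x, ENNReal.ofReal (2 * n) ∂P := by
        apply lintegral_mono
        intro x
        apply ENNReal.ofReal_le_ofReal
        rw [qmean_update, qmean_update]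
        have h1 := abs_le.1 (em_abs_le (c := cc β h (fun i y => ω i y x) n k) (xx_le k) b)
        have h2 := abs_le.1 (em_abs_le (c := cc β h (fun i y => ω i y x) n k) (xx_le k) a)
        linarith
    _ = ENNReal.ofReal (2 * n) := by simp

/-- the measure on the box -/
lemma vol_box (M : ℝ) : (volume : Measure (Fin d → ℝ)).restrict
    (Set.Icc (fun _ => -M) (fun _ => M)) = Measure.pi fun _ => volume.restrict (Set.Icc (-M) M) := by
  rw [← Set.pi_univ_Icc, volume_pi, Measure.restrict_pi_pi]

lemma qq_box_le (hd : 1 ≤ d) (P : Measure Ω) [IsProbabilityMeasure P]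
    {ω : ℕ → (Fin d → ℤ) → Ω → ℝ} (hm : ∀ i y, Measurable (ω i y)) (β : ℝ) (n : ℕ) (k : Fin d)
    {M : ℝ} (hM : 0 < M) :
    ∫⁻ h in Set.Icc (fun _ : Fin d => -M) (fun _ => M), qq P ω β n k h ≤
      ENNReal.ofReal ((2 * M) ^ d * (n / M)) := by
  rw [vol_box]
  calc ∫⁻ h, qq P ω β n k h ∂(Measure.pi fun _ : Fin d => volume.restrict (Set.Icc (-M) M)) ≤
      ∫⁻ _h, ENNReal.ofReal (n / M)
        ∂(Measure.pi fun _ : Fin d => volume.restrict (Set.Icc (-M) M)) := by
        apply lintegral_le_of_lmarginal_le {k} (meas_qq P hm β n k) measurable_const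
        rw [lmarginal_singleton, lmarginal_singleton]
        intro h
        show ∫⁻ s in Set.Icc (-M) M, qq P ω β n k (Function.update h k s) ≤
          ∫⁻ s in Set.Icc (-M) M, ENNReal.ofReal (n / M)
        refine (qq_line_le hd P hm β n k h (by linarith)).trans ?_
        rw [setLIntegral_const, Real.volume_Icc, ← ENNReal.ofReal_mul (by positivity)]
        apply ENNReal.ofReal_le_ofReal
        apply le_of_eq
        field_simp
        ring
    _ = ENNReal.ofReal ((2 * M) ^ d * (n / M)) := by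
        rw [lintegral_const, Measure.pi_univ]
        simp only [Measure.restrict_apply_univ, Real.volume_Icc, Finset.prod_const,
          Finset.card_univ, Fintype.card_fin]
        rw [← ENNReal.ofReal_pow (by linarith), ← ENNReal.ofReal_mul (by positivity)]
        congr 1
        ring

/-- the straight path -/
lemma part_straight (hd : 1 ≤ d) (β : ℝ) (h : Fin d → ℝ) (η : ℕ → (Fin d → ℤ) → ℝ) (n : ℕ)
    (k : Fin d) (b : Bool) :
    β * energy η (fun _ : Fin n => ((k, b) : Step d)) +
      (if b then h k else -h k) * n ≤ Real.log (part β h η n Set.univ) := by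
  rw [Real.le_log_iff_exp_le (part_univ_pos hd β h η n)]
  have h1 : Real.exp (β * energy η (fun _ : Fin n => ((k, b) : Step d)) +
      ∑ j, h j * (pos (fun _ : Fin n => ((k, b) : Step d)) n j : ℝ)) ≤
      part β h η n Set.univ := by
    unfold part
    simp only [Set.indicator_univ]
    exact Finset.single_le_sum (f := fun w : Fin n → Step d =>
      Real.exp (β * energy η w + ∑ j, h j * (pos w n j : ℝ))) (fun _ _ => (Real.exp_pos _).le)
      (Finset.mem_univ _)
  refine le_trans (le_of_eq ?_) h1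
  congr 2
  have h2 : pos (fun _ : Fin n => ((k, b) : Step d)) n =
      (n : ℤ) • (Pi.single k (if b then 1 else -1) : Fin d → ℤ) := by
    unfold pos TH967.DP.stepVec
    have h3 : ∀ i : Fin n, (if i.val < n then (Pi.single k (if b then 1 else -1) : Fin d → ℤ)
        else 0) = Pi.single k (if b then 1 else -1) := fun i => if_pos i.2
    simp only [h3, Finset.sum_const, Finset.card_univ, Fintype.card_fin]
    simp
  rw [h2]
  rw [Finset.sum_eq_single k]
  · cases b <;> simp
  · intro j _ hj
    simp [Pi.single_eq_of_ne hj]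
  · intro hk
    exact absurd (Finset.mem_univ k) hk

end meas

end Pool.Agent.Z97H.DP
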