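import Pool.Agent.N353.SE.SELD

/-!
# Clusters of many points at a prescribed distance in a set carrying a monotone map
-/

set_option autoImplicit false

open MeasureTheory ProbabilityTheory Filter Topology

namespace Pool.Agent.Z97H.DP

open Pool.Agent.N353.SE.Seld (norm_sq_le sum_sq_le)

/-- separated subsets of a set of large outer measure -/
theorem exists_sep {d : ℕ} (D : Set (Fin d → ℝ)) {r : ℝ} (hr : 0 < r) (n : ℕ)
    (hn : ENNReal.ofReal (n * (2 * r) ^ d) < volume D) :
    ∃ S : Finset (Fin d → ℝ), S.card = n ∧ (∀ v ∈ S, v ∈ D) ∧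
      ∀ v ∈ S, ∀ v' ∈ S, v ≠ v' → r ≤ ‖v' - v‖ := by
  classical
  induction n with
  | zero => exact ⟨∅, by simp⟩
  | succ n ih =>
    have hn' : ENNReal.ofReal (n * (2 * r) ^ d) < volume D := by
      refine lt_of_le_of_lt (ENNReal.ofReal_le_ofReal ?_) hn
      apply mul_le_mul_of_nonneg_right _ (by positivity)
      push_cast
      linarith
    obtain ⟨S, hc, hS, hsep⟩ := ih hn'
    obtain ⟨v, hv, hfar⟩ : ∃ v ∈ D, ∀ w ∈ S, r ≤ ‖v - w‖ := by
      by_contra hno
      push Not at hno
      have h1 : volume D ≤ ENNReal.ofReal (n * (2 * r) ^ d) := by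
        calc volume D ≤ volume (⋃ w ∈ S, Metric.ball w r) := by
              apply measure_mono
              intro v hv
              obtain ⟨w, hw, hvw⟩ := hno v hv
              simp only [Set.mem_iUnion]
              exact ⟨w, hw, by rwa [Metric.mem_ball, dist_eq_norm]⟩
          _ ≤ ∑ w ∈ S, volume (Metric.ball w r) := measure_biUnion_finset_le S _
          _ = ENNReal.ofReal (n * (2 * r) ^ d) := by
              simp only [Real.volume_pi_ball _ hr, Fintype.card_fin, Finset.sum_const,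
                nsmul_eq_mul]
              rw [ENNReal.ofReal_mul (by positivity), ENNReal.ofReal_natCast, hc]
      exact absurd hn' (not_lt.2 h1)
    have hvS : v ∉ S := by
      intro hmem
      have := hfar v hmem
      rw [sub_self, norm_zero] at this
      linarith
    refine ⟨insert v S, by rw [Finset.card_insert_of_notMem hvS, hc], ?_, ?_⟩
    · intro w hw
      rcases Finset.mem_insert.1 hw with rfl | hw
      · exact hv
      · exact hS w hw
    · intro w hw w' hw' hne
      rcases Finset.mem_insert.1 hw with h1 | h1 <;>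
        rcases Finset.mem_insert.1 hw' with h2 | h2
      · exact absurd (h1.trans h2.symm) hne
      · rw [norm_sub_rev, h1]
        exact hfar w' h2
      · rw [h2]
        exact hfar w h1
      · exact hsep w h1 w' h2 hne

/-- a pair of points whose images under `v ↦ v + h v` are close -/
theorem minty {d : ℕ} (hd : 1 ≤ d) {s : ℝ} (hs : 0 ≤ s) (a b : Fin d → ℝ)
    (hm : 0 ≤ ∑ k, b k * a k) (hab : ∀ k, |a k + b k| ≤ s) : ‖a‖ ≤ d * s ∧ ‖b‖ ≤ d * s := by
  have hd' : (1 : ℝ) ≤ d := by exact_mod_cast hd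
  have h2 : ∑ k, (a k + b k) ^ 2 = ∑ k, a k ^ 2 + ∑ k, b k ^ 2 + 2 * ∑ k, b k * a k := by
    rw [Finset.mul_sum, ← Finset.sum_add_distrib, ← Finset.sum_add_distrib]
    refine Finset.sum_congr rfl fun k _ => ?_
    ring
  have h1 : ∑ k, (a k + b k) ^ 2 ≤ (d * s) ^ 2 := by
    calc ∑ k, (a k + b k) ^ 2 ≤ ∑ _k : Fin d, s ^ 2 := by
          apply Finset.sum_le_sum
          intro k _
          rw [← sq_abs]
          exact pow_le_pow_left₀ (abs_nonneg _) (hab k) 2
      _ = d * s ^ 2 := by simp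
      _ ≤ (d * s) ^ 2 := by
          rw [mul_pow]
          apply mul_le_mul_of_nonneg_right _ (sq_nonneg _)
          nlinarith
  have h3 := norm_sq_le a
  have h4 := norm_sq_le b
  have h6 : 0 ≤ ∑ k, a k ^ 2 := Finset.sum_nonneg fun k _ => sq_nonneg _
  have h7 : 0 ≤ ∑ k, b k ^ 2 := Finset.sum_nonneg fun k _ => sq_nonneg _
  constructor
  · exact (pow_le_pow_iff_left₀ (norm_nonneg _) (by positivity) two_ne_zero).1 (by linarith)
  · exact (pow_le_pow_iff_left₀ (norm_nonneg _) (by positivity) two_ne_zero).1 (by linarith)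

/-- clusters of `m` points at mutual distance at least `r`, with increments at most `d L r` -/
theorem cluster {d : ℕ} (hd : 1 ≤ d) (D : Set (Fin d → ℝ)) (h : (Fin d → ℝ) → (Fin d → ℝ)) {N : ℝ}
    (hN : 1 ≤ N) (hD1 : ∀ v ∈ D, ‖v‖ ≤ N) (hD2 : ∀ v ∈ D, ‖h v‖ ≤ N)
    (hmono : ∀ v ∈ D, ∀ v' ∈ D, 0 ≤ ∑ k, (h v' k - h v k) * (v' k - v k))
    {e : ℝ} (he0 : 0 < e) (hvol : ENNReal.ofReal e < volume D) (m : ℕ)
    {L : ℝ} (hL : L = 12 * N * max 1 (m / e)) {r : ℝ} (hr : 0 < r)
    (hLr : L * r ≤ 1) :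
    ∃ S : Finset (Fin d → ℝ), S.card = m ∧ (∀ v ∈ S, v ∈ D) ∧
      (∀ v ∈ S, ∀ v' ∈ S, v ≠ v' → r ≤ ‖v' - v‖) ∧
      ∀ v ∈ S, ∀ v' ∈ S, ‖v' - v‖ ≤ d * (L * r) ∧ ‖h v' - h v‖ ≤ d * (L * r) := by
  classical
  rcases Nat.eq_zero_or_pos m with rfl | hm
  · exact ⟨∅, by simp⟩
  have hL0 : 0 < L := by
    rw [hL]
    have : (1 : ℝ) ≤ max 1 (m / e) := le_max_left _ _
    positivity
  set s : ℝ := L * r with hs
  have hs0 : 0 < s := by positivity
  set I : Finset ℤ := Finset.Icc ⌊(-(2 * N)) / s⌋ ⌊(2 * N) / s⌋ with hI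
  set T : Finset (Fin d → ℤ) := Fintype.piFinset fun _ => I with hT
  have hIcard : (I.card : ℝ) ≤ 6 * N / s := by
    rw [hI, Int.card_Icc]
    have h1 : ⌊(-(2 * N)) / s⌋ ≤ ⌊(2 * N) / s⌋ := by
      apply Int.floor_le_floor
      apply div_le_div_of_nonneg_right _ hs0.le
      linarith
    have h2 : (((⌊(2 * N) / s⌋ + 1 - ⌊(-(2 * N)) / s⌋).toNat : ℕ) : ℝ) =
        ((⌊(2 * N) / s⌋ + 1 - ⌊(-(2 * N)) / s⌋ : ℤ) : ℝ) := by
      rw [← Int.cast_natCast, Int.toNat_of_nonneg (by omega)]
    rw [h2]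
    push_cast
    have h3 := Int.floor_le ((2 * N) / s)
    have h4 := Int.sub_one_lt_floor ((-(2 * N)) / s)
    have h5 : (2 * N) / s + 1 - ((-(2 * N)) / s - 1) ≤ 6 * N / s := by
      have h6 : (2 * N) / s + 1 - ((-(2 * N)) / s - 1) = (4 * N + 2 * s) / s := by
        field_simp
        ring
      rw [h6]
      apply div_le_div_of_nonneg_right _ hs0.le
      linarith
    linarith
  have hTcard : (T.card : ℝ) ≤ (6 * N / s) ^ d := by
    rw [hT, Fintype.card_piFinset]
    simp only [Finset.prod_const, Finset.card_univ, Fintype.card_fin]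
    push_cast
    exact pow_le_pow_left₀ (Nat.cast_nonneg _) hIcard d
  obtain ⟨S, hc, hS, hsep⟩ := exists_sep D hr (m * T.card) (by
    refine lt_of_le_of_lt (ENNReal.ofReal_le_ofReal ?_) hvol
    push_cast
    have h1 : (6 * N / s) ^ d * (2 * r) ^ d = (12 * N / L) ^ d := by
      rw [← mul_pow]
      congr 1
      rw [hs]
      field_simp
      ring
    have h2 : (m : ℝ) * (12 * N / L) ^ d ≤ e := by
      have h3 : 12 * N / L = (max 1 ((m : ℝ) / e))⁻¹ := by
        have h7 : (0 : ℝ) < max 1 (m / e) := lt_of_lt_of_le one_pos (le_max_left _ _)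
        rw [hL]
        field_simp
      have h4 : (12 * N / L) ^ d ≤ 12 * N / L := by
        have h5 : (max 1 ((m : ℝ) / e))⁻¹ ≤ 1 := inv_le_one_of_one_le₀ (le_max_left _ _)
        calc (12 * N / L) ^ d ≤ (12 * N / L) ^ 1 := by
              apply pow_le_pow_of_le_one (by positivity) _ hd
              rw [h3]
              exact h5
          _ = _ := pow_one _
      have h6 : (max 1 ((m : ℝ) / e))⁻¹ ≤ e / m := by
        have hm' : (0 : ℝ) < m := by exact_mod_cast hm
        have h8 : e / m = ((m : ℝ) / e)⁻¹ := (inv_div _ _).symm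
        rw [h8]
        exact inv_anti₀ (by positivity) (le_max_right _ _)
      calc (m : ℝ) * (12 * N / L) ^ d ≤ m * (e / m) := by
            apply mul_le_mul_of_nonneg_left _ (Nat.cast_nonneg _)
            rw [h3] at h4 ⊢
            exact h4.trans h6
        _ = e := by
            have hm' : (m : ℝ) ≠ 0 := by exact_mod_cast hm.ne'
            field_simp
    calc (m : ℝ) * T.card * (2 * r) ^ d ≤ m * (6 * N / s) ^ d * (2 * r) ^ d := by
          apply mul_le_mul_of_nonneg_right _ (by positivity)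
          exact mul_le_mul_of_nonneg_left hTcard (Nat.cast_nonneg _)
      _ = m * ((6 * N / s) ^ d * (2 * r) ^ d) := by ring
      _ ≤ e := by rw [h1]; exact h2)
  set g : (Fin d → ℝ) → (Fin d → ℤ) := fun v k => ⌊(v k + h v k) / s⌋ with hg
  have hmaps : ∀ v ∈ S, g v ∈ T := by
    intro v hv
    rw [hT, Fintype.mem_piFinset]
    intro k
    rw [hI, Finset.mem_Icc]
    have h1 := (norm_le_pi_norm v k).trans (hD1 v (hS v hv))
    have h2 := (norm_le_pi_norm (h v) k).trans (hD2 v (hS v hv))
    rw [Real.norm_eq_abs, abs_le] at h1 h2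
    constructor
    · apply Int.floor_le_floor
      apply div_le_div_of_nonneg_right _ hs0.le
      linarith
    · apply Int.floor_le_floor
      apply div_le_div_of_nonneg_right _ hs0.le
      linarith
  have hTne : T.Nonempty := by
    have hcard : volume D ≠ 0 := (lt_of_le_of_lt zero_le hvol).ne'
    have hDne : D.Nonempty := by
      by_contra hno
      rw [Set.not_nonempty_iff_eq_empty] at hno
      rw [hno] at hcard
      exact hcard measure_empty
    obtain ⟨v, hv⟩ := hDne
    refine ⟨g v, ?_⟩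
    rw [hT, Fintype.mem_piFinset]
    intro k
    rw [hI, Finset.mem_Icc]
    have h1 := (norm_le_pi_norm v k).trans (hD1 v hv)
    have h2 := (norm_le_pi_norm (h v) k).trans (hD2 v hv)
    rw [Real.norm_eq_abs, abs_le] at h1 h2
    constructor
    · apply Int.floor_le_floor
      apply div_le_div_of_nonneg_right _ hs0.le
      linarith
    · apply Int.floor_le_floor
      apply div_le_div_of_nonneg_right _ hs0.le
      linarith
  obtain ⟨z, hz, hcz⟩ := Finset.exists_le_card_fiber_of_mul_le_card_of_maps_to (s := S) (t := T)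
    (f := g) (n := m) hmaps hTne (by rw [hc, mul_comm])
  obtain ⟨S', hS', hcS'⟩ := Finset.exists_subset_card_eq hcz
  refine ⟨S', hcS', ?_, ?_, ?_⟩
  · intro v hv
    exact hS v (Finset.mem_filter.1 (hS' hv)).1
  · intro v hv v' hv' hne
    exact hsep v (Finset.mem_filter.1 (hS' hv)).1 v' (Finset.mem_filter.1 (hS' hv')).1 hne
  · intro v hv v' hv'
    obtain ⟨p1, p2⟩ := Finset.mem_filter.1 (hS' hv)
    obtain ⟨q1, q2⟩ := Finset.mem_filter.1 (hS' hv')
    have h1 := hmono v (hS v p1) v' (hS v' q1)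
    have h2 := minty hd hs0.le (v' - v) (h v' - h v) (by simpa using h1) (by
      intro k
      have e1 : g v k = g v' k := by rw [p2, q2]
      simp only [hg] at e1
      have f1 := Int.floor_le ((v k + h v k) / s)
      have f2 := Int.lt_floor_add_one ((v k + h v k) / s)
      have f3 := Int.floor_le ((v' k + h v' k) / s)
      have f4 := Int.lt_floor_add_one ((v' k + h v' k) / s)
      rw [e1] at f1 f2
      rw [div_lt_iff₀ hs0] at f2 f4
      rw [le_div_iff₀ hs0] at f1 f3
      simp only [Pi.sub_apply]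
      rw [abs_le]
      constructor <;> nlinarith)
    exact h2

end Pool.Agent.Z97H.DP
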