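import Pool.Agent.Z97H.DP.Sel
import Pool.Agent.Z97H.DP.Mat
import Pool.Agent.N662.SE.Prob

/-!
# The uniform diffusive lower bound
-/

set_option autoImplicit false

open MeasureTheory ProbabilityTheory Filter Topology

namespace Pool.Agent.Z97H.DP

open TH967.DP Pool.Agent.N662.SE

variable {d : ℕ}

/-- `v` is a subgradient of `φ` at `h` -/
def Sub (φ : (Fin d → ℝ) → ℝ) (h v : Fin d → ℝ) : Prop :=
  ∀ h', φ h + ∑ k, (h' k - h k) * v k ≤ φ h'

lemma sub_mono {φ : (Fin d → ℝ) → ℝ} {h v h' v' : Fin d → ℝ} (h1 : Sub φ h v) (h2 : Sub φ h' v') :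
    0 ≤ ∑ k, (h' k - h k) * (v' k - v k) := by
  have e1 := h1 h'
  have e2 := h2 h
  have e3 : ∑ k, (h' k - h k) * (v' k - v k) =
      -(∑ k, (h k - h' k) * v' k) - ∑ k, (h' k - h k) * v k := by
    rw [← Finset.sum_neg_distrib, ← Finset.sum_sub_distrib]
    exact Finset.sum_congr rfl fun k _ => by ring
  rw [e3]
  linarith

/-- the box around the point `n v` -/
def box (v : Fin d → ℝ) (r : ℝ) (n : ℕ) : Set (Fin n → Step d) :=
  {w | ∀ k, |(pos w n k : ℝ) - n * v k| ≤ r}

theorem unif (hd : 1 ≤ d) {Ω : Type} [MeasurableSpace Ω] (P : Measure Ω) [IsProbabilityMeasure P]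
    (ω : ℕ → (Fin d → ℤ) → Ω → ℝ) (hm : ∀ i y, Measurable (ω i y)) (β : ℝ)
    (φ : (Fin d → ℝ) → ℝ) (M : ℝ) (hM : 1 ≤ M) {η δ : ℝ} (hη : 0 < η) (hδ : 0 < δ) :
    ∃ ε : ℝ, 0 < ε ∧ ∀ n : ℕ, 1 ≤ n →
      volume {v : Fin d → ℝ | ‖v‖ ≤ M ∧ ∃ h : Fin d → ℝ, ‖h‖ ≤ M ∧ Sub φ h v ∧
        η ≤ ∫ x, prob β h (fun i y => ω i y x) n (box v (ε * Real.sqrt n) n) ∂P} ≤
      ENNReal.ofReal δ := by
  classical
  obtain ⟨m, hm1⟩ := exists_nat_gt (2 / η ^ 2)
  have hm0 : (0 : ℝ) < m := lt_trans (by positivity) hm1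
  have hd' : (1 : ℝ) ≤ d := by exact_mod_cast hd
  set L : ℝ := 12 * M * max 1 (m / δ) with hL
  have hL1 : 1 ≤ L := by
    have : (1 : ℝ) ≤ max 1 (m / δ) := le_max_left _ _
    rw [hL]
    nlinarith
  set ε : ℝ := 1 / (8 * d ^ 2 * L) with hε
  have hε0 : 0 < ε := by positivity
  refine ⟨ε, hε0, fun n hn => ?_⟩
  have hn' : (1 : ℝ) ≤ n := by exact_mod_cast hn
  have hn0 : (0 : ℝ) < n := by linarith
  have hsq1 : 1 ≤ Real.sqrt n := Real.one_le_sqrt.2 hn'
  have hsq0 : 0 < Real.sqrt n := by linarith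
  have hsq : Real.sqrt n * Real.sqrt n = n := Real.mul_self_sqrt hn0.le
  set r : ℝ := 4 * ε / Real.sqrt n with hr
  have hr0 : 0 < r := by positivity
  set D : Set (Fin d → ℝ) := {v : Fin d → ℝ | ‖v‖ ≤ M ∧ ∃ h : Fin d → ℝ, ‖h‖ ≤ M ∧ Sub φ h v ∧
        η ≤ ∫ x, prob β h (fun i y => ω i y x) n (box v (ε * Real.sqrt n) n) ∂P} with hD
  by_contra hcon
  push Not at hcon
  set g : (Fin d → ℝ) → (Fin d → ℝ) := fun v => if hv : v ∈ D then hv.2.choose else 0 with hg
  have hgs : ∀ v ∈ D, ‖g v‖ ≤ M ∧ Sub φ (g v) v ∧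
      η ≤ ∫ x, prob β (g v) (fun i y => ω i y x) n (box v (ε * Real.sqrt n) n) ∂P := by
    intro v hv
    simp only [hg, dif_pos hv]
    exact hv.2.choose_spec
  have hLr : L * r ≤ 1 := by
    have h1 : L * r = 1 / (2 * d ^ 2) / Real.sqrt n := by
      rw [hr, hε]
      field_simp
      ring
    rw [h1, div_le_one hsq0, div_le_iff₀ (by positivity)]
    nlinarith
  obtain ⟨S, hSc, hS, hsep, hcl⟩ := cluster hd D g hM (fun v hv => hv.1)
    (fun v hv => (hgs v hv).1) (fun v hv v' hv' => sub_mono (hgs v hv).2.1 (hgs v' hv').2.1)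
    hδ hcon m hL hr0 hLr
  -- the deterministic estimate
  have hdet : ∀ x : Ω, (∑ v ∈ S, Real.sqrt (prob β (g v) (fun i y => ω i y x) n
      {w | ∀ k, |(pos w n k : ℝ) - n * v k| ≤ ε * Real.sqrt n})) ^ 2 ≤
      Real.exp (1 / 2) * S.card := by
    intro x
    apply sum_sqrt_le hd S g (fun v => v)
    · intro v hv v' hv' hne
      have h1 := hsep v' hv' v hv (Ne.symm hne)
      by_contra hno
      push Not at hno
      have h2 : ‖v - v'‖ ≤ 2 * (ε * Real.sqrt n) / n := by
        rw [pi_norm_le_iff_of_nonneg (by positivity)]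
        intro k
        rw [Pi.sub_apply, Real.norm_eq_abs, le_div_iff₀ hn0, mul_comm]
        exact hno k
      have h3 : 2 * (ε * Real.sqrt n) / n = r / 2 := by
        rw [hr]
        have h4 : Real.sqrt n ≠ 0 := hsq0.ne'
        field_simp
        nlinarith
      rw [h3] at h2
      linarith
    · intro v hv v' hv'
      obtain ⟨h1, h2⟩ := hcl v hv v' hv'
      have h3 : ∀ k, |g v' k - g v k| ≤ d * (L * r) := fun k =>
        (norm_le_pi_norm (g v' - g v) k).trans h2
      have h4 : ∀ k, |v' k - v k| ≤ d * (L * r) := fun k =>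
        (norm_le_pi_norm (v' - v) k).trans h1
      have s0 : ∑ k, (g v' k - g v k) * (v' k - v k) ≤ d * ((d * (L * r)) * (d * (L * r))) := by
        calc ∑ k, (g v' k - g v k) * (v' k - v k) ≤
            ∑ _k : Fin d, ((d * (L * r)) * (d * (L * r))) := by
              apply Finset.sum_le_sum
              intro k _
              refine (le_abs_self _).trans ?_
              rw [abs_mul]
              exact mul_le_mul (h3 k) (h4 k) (abs_nonneg _) (by positivity)
          _ = _ := by simp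
      have s1 : ∑ k, |g v' k - g v k| ≤ d * (d * (L * r)) := by
        calc ∑ k, |g v' k - g v k| ≤ ∑ _k : Fin d, (d * (L * r)) :=
              Finset.sum_le_sum fun k _ => h3 k
          _ = _ := by simp
      have s2 : n * (∑ k, (g v' k - g v k) * (v' k - v k)) ≤
          n * (d * ((d * (L * r)) * (d * (L * r)))) := mul_le_mul_of_nonneg_left s0 hn0.le
      have s3 : 2 * (∑ k, |g v' k - g v k|) * (ε * Real.sqrt n) ≤
          2 * (d * (d * (L * r))) * (ε * Real.sqrt n) :=
        mul_le_mul_of_nonneg_right (by linarith) (by positivity)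
      have s4 : n * (d * ((d * (L * r)) * (d * (L * r)))) = 16 * d ^ 3 * L ^ 2 * ε ^ 2 := by
        have h5 : r * Real.sqrt n = 4 * ε := by
          rw [hr]
          field_simp
        calc n * (d * ((d * (L * r)) * (d * (L * r)))) =
            d ^ 3 * L ^ 2 * (n * r * r) := by ring
          _ = d ^ 3 * L ^ 2 * ((r * Real.sqrt n) * (r * Real.sqrt n)) := by
              congr 1
              nth_rewrite 1 [← hsq]
              ring
          _ = _ := by rw [h5]; ring
      have s5 : 2 * (d * (d * (L * r))) * (ε * Real.sqrt n) = 8 * d ^ 2 * L * ε ^ 2 := by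
        have h5 : r * Real.sqrt n = 4 * ε := by
          rw [hr]
          field_simp
        calc 2 * (d * (d * (L * r))) * (ε * Real.sqrt n) =
            2 * d ^ 2 * L * ε * (r * Real.sqrt n) := by ring
          _ = _ := by rw [h5]; ring
      have h6 : 8 * d ^ 2 * L * ε = 1 := by
        rw [hε]
        field_simp
      have h7 : ε ≤ 1 / 8 := by
        rw [hε]
        apply one_div_le_one_div_of_le (by norm_num)
        nlinarith [mul_nonneg (sub_nonneg.2 hd') (sub_nonneg.2 hd'), sq_nonneg ((d : ℝ) - 1),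
          mul_le_mul hd' hd' (by norm_num) (by linarith)]
      have h8 : 16 * d ^ 3 * L ^ 2 * ε ^ 2 ≤ 1 / 4 := by
        have h9 : 64 * d ^ 4 * L ^ 2 * ε ^ 2 = 1 := by
          calc 64 * d ^ 4 * L ^ 2 * ε ^ 2 = (8 * d ^ 2 * L * ε) ^ 2 := by ring
            _ = 1 := by rw [h6]; ring
        have h10 : 64 * d ^ 3 * L ^ 2 * ε ^ 2 ≤ 64 * d ^ 4 * L ^ 2 * ε ^ 2 := by
          apply mul_le_mul_of_nonneg_right _ (sq_nonneg _)
          apply mul_le_mul_of_nonneg_right _ (sq_nonneg _)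
          have : (d : ℝ) ^ 3 ≤ (d : ℝ) ^ 4 := pow_le_pow_right₀ hd' (by norm_num)
          linarith
        linarith
      have h11 : 8 * d ^ 2 * L * ε ^ 2 = ε := by
        calc 8 * d ^ 2 * L * ε ^ 2 = (8 * d ^ 2 * L * ε) * ε := by ring
          _ = ε := by rw [h6]; ring
      linarith
  -- the expectation
  have hint : ∀ v, Integrable (fun x => prob β (g v) (fun i y => ω i y x) n
      (box v (ε * Real.sqrt n) n)) P := by
    intro v
    apply (integrable_const (1 : ℝ)).mono' (measurable_prob β (g v) _ hm).aestronglyMeasurable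
    refine Eventually.of_forall fun x => ?_
    rw [Real.norm_eq_abs, abs_of_nonneg (prob_nonneg _ _ _ _)]
    exact prob_le_one hd _ _ _ _
  have hpt : ∀ x : Ω, ∑ v ∈ S, prob β (g v) (fun i y => ω i y x) n
      (box v (ε * Real.sqrt n) n) ≤ Real.sqrt (2 * m) := by
    intro x
    apply Real.le_sqrt_of_sq_le
    have h1 := hdet x
    have h2 : ∑ v ∈ S, prob β (g v) (fun i y => ω i y x) n (box v (ε * Real.sqrt n) n) ≤
        ∑ v ∈ S, Real.sqrt (prob β (g v) (fun i y => ω i y x) n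
          {w | ∀ k, |(pos w n k : ℝ) - n * v k| ≤ ε * Real.sqrt n}) := by
      apply Finset.sum_le_sum
      intro v _
      have h3 : 0 ≤ prob β (g v) (fun i y => ω i y x) n (box v (ε * Real.sqrt n) n) :=
        prob_nonneg _ _ _ _
      have h4 : prob β (g v) (fun i y => ω i y x) n (box v (ε * Real.sqrt n) n) ≤ 1 :=
        prob_le_one hd _ _ _ _
      apply Real.le_sqrt_of_sq_le
      calc (prob β (g v) (fun i y => ω i y x) n (box v (ε * Real.sqrt n) n)) ^ 2 ≤
          prob β (g v) (fun i y => ω i y x) n (box v (ε * Real.sqrt n) n) := by nlinarith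
        _ = _ := rfl
    have h5 : 0 ≤ ∑ v ∈ S, prob β (g v) (fun i y => ω i y x) n (box v (ε * Real.sqrt n) n) :=
      Finset.sum_nonneg fun v _ => prob_nonneg _ _ _ _
    have h6 : Real.exp (1 / 2) ≤ 2 := by
      have h7 : Real.exp (1 / 2) ^ 2 = Real.exp 1 := by
        rw [sq, ← Real.exp_add]
        norm_num
      have h8 := Real.exp_one_lt_d9
      nlinarith [Real.exp_pos (1 / 2)]
    calc (∑ v ∈ S, prob β (g v) (fun i y => ω i y x) n (box v (ε * Real.sqrt n) n)) ^ 2 ≤ _ :=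
          pow_le_pow_left₀ h5 h2 2
      _ ≤ Real.exp (1 / 2) * S.card := h1
      _ ≤ 2 * m := by
          rw [hSc]
          exact mul_le_mul_of_nonneg_right h6 hm0.le
  have h1 : (m : ℝ) * η ≤ Real.sqrt (2 * m) := by
    calc (m : ℝ) * η = ∑ _v ∈ S, η := by simp [hSc]
      _ ≤ ∑ v ∈ S, ∫ x, prob β (g v) (fun i y => ω i y x) n (box v (ε * Real.sqrt n) n) ∂P :=
          Finset.sum_le_sum fun v hv => (hgs v (hS v hv)).2.2
      _ = ∫ x, ∑ v ∈ S, prob β (g v) (fun i y => ω i y x) n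
            (box v (ε * Real.sqrt n) n) ∂P := (integral_finsetSum S fun v _ => hint v).symm
      _ ≤ ∫ _x, Real.sqrt (2 * m) ∂P := by
          apply integral_mono (integrable_finsetSum S fun v _ => hint v) (integrable_const _)
          exact hpt
      _ = Real.sqrt (2 * m) := by simp
  have h2 : ((m : ℝ) * η) ^ 2 ≤ 2 * m := by
    calc ((m : ℝ) * η) ^ 2 ≤ (Real.sqrt (2 * m)) ^ 2 := pow_le_pow_left₀ (by positivity) h1 2
      _ = 2 * m := Real.sq_sqrt (by positivity)
  rw [div_lt_iff₀ (by positivity)] at hm1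
  have h3 : (m : ℝ) * (m * η ^ 2) ≤ m * 2 := by
    calc (m : ℝ) * (m * η ^ 2) = (m * η) ^ 2 := by ring
      _ ≤ _ := by linarith
  have h4 := le_of_mul_le_mul_left h3 hm0
  linarith

end Pool.Agent.Z97H.DP
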